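import Mathlib

/-!
# Project SY (helper82): no square roots modulo the square of a prime

An abstract form: the valuation ring `O` of a field, a ring `R` dense in `O`, a monic polynomial over `R`
irreducible modulo the maximal ideal.
-/

set_option autoImplicit false
set_option linter.all false

open Polynomial
open scoped Classical

namespace Pool.Agent.Helper82.SY

section abs

variable {R L Γ : Type} [CommRing R] [Field L] [LinearOrderedCommGroupWithZero Γ]

theorem lift_poly {O : Type} [CommRing O] {ι : R →+* O} {I : Ideal O}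
    (hs : ∀ z : O, ∃ r : R, z - ι r ∈ I) (p : O[X]) :
    ∃ P : R[X], P.map ((Ideal.Quotient.mk I).comp ι) = p.map (Ideal.Quotient.mk I) := by
  refine Polynomial.map_surjective _ (fun z => ?_) _
  obtain ⟨z, rfl⟩ := Ideal.Quotient.mk_surjective z
  obtain ⟨r, hr⟩ := hs z
  exact ⟨r, (Ideal.Quotient.eq.2 hr).symm⟩

/-- Reduction of a relation between polynomials. -/
theorem red_rel {O : Type} [CommRing O] {ι : R →+* O} {I : Ideal O} {J : Ideal R}
    (hs : ∀ z : O, ∃ r : R, z - ι r ∈ I) (hk : ∀ r, ι r ∈ I → r ∈ J)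
    {f : R[X]} {x : O} {s q : O[X]} (h : C x - X - s ^ 2 = (f.map ι) * q) :
    ∃ (x' : R) (s' q' : R[X]), C x' - X - s' ^ 2 - q' * f ∈ J.map (C : R →+* R[X]) := by
  obtain ⟨s', hs'⟩ := lift_poly hs s
  obtain ⟨q', hq'⟩ := lift_poly hs q
  obtain ⟨x', hx'⟩ := hs x
  have hx2 : ((Ideal.Quotient.mk I).comp ι) x' = Ideal.Quotient.mk I x :=
    (Ideal.Quotient.eq.2 hx').symm
  refine ⟨x', s', q', ?_⟩
  rw [Ideal.mem_map_C_iff]
  intro n
  apply hk
  rw [← Ideal.Quotient.eq_zero_iff_mem]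
  have h1 : (C x' - X - s' ^ 2 - q' * f).map ((Ideal.Quotient.mk I).comp ι) = 0 := by
    have h2 := congrArg (Polynomial.map (Ideal.Quotient.mk I)) h
    simp only [Polynomial.map_sub, Polynomial.map_mul, Polynomial.map_pow, map_C, map_X] at h2 ⊢
    rw [hs', hq', hx2, h2, Polynomial.map_map]
    ring
  have h2 := congrArg (fun p => coeff p n) h1
  simp only [coeff_map, coeff_zero] at h2
  exact h2

/-- A monic polynomial, irreducible modulo `J`, which divides a square. -/
theorem dvd_red {O : Type} [CommRing O] {ι : R →+* O} {I : Ideal O} {J : Ideal R} [J.IsMaximal]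
    (hs : ∀ z : O, ∃ r : R, z - ι r ∈ I) (hk : ∀ r, ι r ∈ I ↔ r ∈ J)
    {f : R[X]} (hirr : Irreducible (f.map (Ideal.Quotient.mk J))) {s p q : O[X]}
    (hp : p.map (Ideal.Quotient.mk I) = 0) (h : p - s ^ 2 = (f.map ι) * q) :
    (f.map ι).map (Ideal.Quotient.mk I) ∣ s.map (Ideal.Quotient.mk I) := by
  letI : Field (R ⧸ J) := Ideal.Quotient.field J
  set ψ := (Ideal.Quotient.mk I).comp ι with hψ
  have hker : ∀ P : R[X], P.map ψ = 0 ↔ P.map (Ideal.Quotient.mk J) = 0 := by
    intro P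
    rw [Polynomial.ext_iff, Polynomial.ext_iff]
    refine forall_congr' fun n => ?_
    rw [coeff_map, coeff_map, coeff_zero, coeff_zero, Ideal.Quotient.eq_zero_iff_mem, ← hk,
      ← Ideal.Quotient.eq_zero_iff_mem]
    rfl
  obtain ⟨T, hT⟩ := lift_poly hs s
  obtain ⟨Q, hQ⟩ := lift_poly hs q
  have h1 : (T ^ 2 + f * Q).map ψ = 0 := by
    have h2 := congrArg (Polynomial.map (Ideal.Quotient.mk I)) h
    simp only [Polynomial.map_sub, Polynomial.map_mul, Polynomial.map_pow] at h2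
    simp only [Polynomial.map_add, Polynomial.map_mul, Polynomial.map_pow]
    rw [hT, hQ, hψ, ← Polynomial.map_map, ← h2, hp]
    ring
  rw [hker, Polynomial.map_add, Polynomial.map_mul, Polynomial.map_pow] at h1
  have h2 : f.map (Ideal.Quotient.mk J) ∣ T.map (Ideal.Quotient.mk J) ^ 2 :=
    ⟨-Q.map (Ideal.Quotient.mk J), by linear_combination h1⟩
  have h3 := hirr.prime.dvd_of_dvd_pow h2
  obtain ⟨u, hu⟩ := h3
  obtain ⟨U, rfl⟩ := Polynomial.map_surjective (Ideal.Quotient.mk J) Ideal.Quotient.mk_surjective u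
  have h4 : (T - f * U).map ψ = 0 := by
    rw [hker, Polynomial.map_sub, Polynomial.map_mul, hu, sub_self]
  rw [Polynomial.map_sub, Polynomial.map_mul, sub_eq_zero] at h4
  refine ⟨U.map ψ, ?_⟩
  rw [← hT, h4, hψ, Polynomial.map_map]

variable {ν : Valuation L Γ}

/-- Polynomials with integral coefficients. -/
theorem exists_int {p : L[X]} (h : ∀ i, ν (p.coeff i) ≤ 1) :
    ∃ P : (ν.integer)[X], P.map ν.integer.subtype = p := by
  have h1 : p ∈ Polynomial.lifts ν.integer.subtype := by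
    rw [Polynomial.lifts_iff_coeff_lifts]
    intro n
    exact ⟨⟨p.coeff n, h n⟩, rfl⟩
  obtain ⟨P, hP⟩ := (Polynomial.mem_lifts _).1 h1
  exact ⟨P, hP⟩

/-- **No square roots.** -/
theorem no_sqrt {ι : R →+* L} (hι : ∀ r, ν (ι r) ≤ 1) {J : Ideal R} [J.IsMaximal]
    (hs1 : ∀ z : L, ν z ≤ 1 → ∃ r, ν (z - ι r) < 1) (hk1 : ∀ r, ν (ι r) < 1 ↔ r ∈ J)
    {ε : Γ} (hs2 : ∀ z : L, ν z ≤ 1 → ∃ r, ν (z - ι r) ≤ ε) (hk2 : ∀ r, ν (ι r) ≤ ε → r ∈ J ^ 2)
    {f : R[X]} (hm : f.Monic) (hirr : Irreducible (f.map (Ideal.Quotient.mk J)))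
    (hno : ∀ (x : R) (s q : R[X]), C x - X - s ^ 2 - q * f ∉ (J ^ 2).map (C : R →+* R[X]))
    {x : L} (hx : ν x ≤ 1) {s : L[X]} (h : f.map ι ∣ C x - X - s ^ 2) : False := by
  set σ := ν.integer.subtype with hσ
  have hinj : Function.Injective σ := Subtype.val_injective
  set ι' : R →+* ν.integer := ι.codRestrict ν.integer hι with hι'
  have hcomp : σ.comp ι' = ι := RingHom.ext fun r => rfl
  have hfO : (f.map ι').map σ = f.map ι := by rw [Polynomial.map_map, hcomp]
  have hmL : (f.map ι).Monic := hm.map _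
  set s₀ := s %ₘ (f.map ι) with hs₀
  have h0 : f.map ι ∣ C x - X - s₀ ^ 2 := by
    have h1 : f.map ι ∣ s - s₀ := ⟨s /ₘ (f.map ι), by
      have := modByMonic_add_div s (f.map ι)
      rw [← hs₀] at this
      linear_combination -this⟩
    have e : C x - X - s₀ ^ 2 = (C x - X - s ^ 2) + (s - s₀) * (s + s₀) := by ring
    rw [e]
    exact dvd_add h (Dvd.dvd.mul_right h1 _)
  have hdeg : s₀.degree < (f.map ι).degree := degree_modByMonic_lt s hmL
  have hint : ∀ i, ν (s₀.coeff i) ≤ 1 := by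
    by_contra hc
    push Not at hc
    obtain ⟨i, hi⟩ := hc
    have hi0 : s₀.coeff i ≠ 0 := by
      intro h1
      rw [h1, map_zero] at hi
      exact not_lt_zero' hi
    obtain ⟨m, hm1, hm2⟩ := Finset.exists_max_image s₀.support (fun i => ν (s₀.coeff i))
      ⟨i, mem_support_iff.2 hi0⟩
    set c := s₀.coeff m with hc
    have hc1 : 1 < ν c := lt_of_lt_of_le hi (hm2 i (mem_support_iff.2 hi0))
    have hc0 : c ≠ 0 := by
      intro h1
      rw [h1, map_zero] at hc1
      exact not_lt_zero' hc1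
    have hmax : ∀ i, ν (s₀.coeff i) ≤ ν c := by
      intro i
      by_cases h1 : s₀.coeff i = 0
      · rw [h1, map_zero]; exact zero_le'
      · exact hm2 i (mem_support_iff.2 h1)
    have hνc : ν c ≠ 0 := (_root_.ne_of_gt (lt_trans zero_lt_one hc1))
    obtain ⟨S, hS⟩ := exists_int (ν := ν) (p := C c⁻¹ * s₀) (fun i => by
      rw [coeff_C_mul, map_mul, map_inv₀, inv_mul_le_iff₀ (zero_lt_iff.2 hνc), mul_one]
      exact hmax i)
    have hS' : S.map σ = C c⁻¹ * s₀ := hS
    have hcinv : ν c⁻¹ < 1 := by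
      rw [map_inv₀]
      exact (inv_lt_one₀ (zero_lt_iff.2 hνc)).2 hc1
    let a : ν.integer := ⟨c⁻¹, hcinv.le⟩
    let b : ν.integer := ⟨x, hx⟩
    have hσa : σ a = c⁻¹ := rfl
    have hσb : σ b = x := rfl
    have h3 : f.map ι' ∣ C (a ^ 2) * (C b - X) - S ^ 2 := by
      rw [← Polynomial.map_dvd_map σ hinj (hm.map _), hfO]
      have e : (C (a ^ 2) * (C b - X) - S ^ 2).map σ = C (c⁻¹ ^ 2) * (C x - X - s₀ ^ 2) := by
        simp only [Polynomial.map_sub, Polynomial.map_mul, Polynomial.map_pow, map_C, map_X,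
          map_pow, hσa, hσb, hS']
        ring
      rw [e]
      exact Dvd.dvd.mul_left h0 _
    obtain ⟨q, hq⟩ := h3
    have ha1 : a ∈ Valuation.ltIdeal ν 1 := hcinv
    have h4 := dvd_red (ι := ι') (I := Valuation.ltIdeal ν 1) (J := J)
      (fun z => by
        obtain ⟨r, hr⟩ := hs1 z.1 z.2
        exact ⟨r, hr⟩) (fun r => hk1 r) hirr (s := S) (by
        rw [Polynomial.map_mul, map_C, map_pow, Ideal.Quotient.eq_zero_iff_mem.2 ha1,
          zero_pow (by norm_num), C_0, zero_mul]) hq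
    have hnt : Nontrivial (ν.integer ⧸ Valuation.ltIdeal ν 1) := by
      rw [Ideal.Quotient.nontrivial_iff, Ne, Ideal.eq_top_iff_one]
      intro h5
      have h6 : ν (1 : L) < 1 := h5
      rw [map_one] at h6
      exact lt_irrefl _ h6
    have hSm : S.coeff m = 1 := by
      apply hinj
      rw [← coeff_map, hS, coeff_C_mul, ← hc, inv_mul_cancel₀ hc0, map_one]
    refine ((hm.map ι').map (Ideal.Quotient.mk (Valuation.ltIdeal ν 1))).not_dvd_of_degree_lt
      ?_ ?_ h4
    · intro h5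
      have h6 := congrArg (fun p => coeff p m) h5
      simp only [coeff_map, hSm, map_one, coeff_zero] at h6
      exact one_ne_zero h6
    · rw [(hm.map ι').degree_map]
      refine lt_of_le_of_lt degree_map_le ?_
      rw [← degree_map_eq_of_injective hinj, hS, ← degree_map_eq_of_injective hinj (f.map ι'), hfO]
      refine lt_of_le_of_lt ?_ hdeg
      rw [← smul_eq_C_mul]
      exact degree_smul_le _ _
  obtain ⟨S, hS⟩ := exists_int hint
  let b : ν.integer := ⟨x, hx⟩
  have hσb : σ b = x := rfl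
  have h3 : f.map ι' ∣ C b - X - S ^ 2 := by
    rw [← Polynomial.map_dvd_map σ hinj (hm.map _), hfO]
    simp only [Polynomial.map_sub, Polynomial.map_pow, map_C, map_X, hσb]
    rw [hS]
    exact h0
  obtain ⟨q, hq⟩ := h3
  obtain ⟨x', s', q', h4⟩ := red_rel (ι := ι') (I := Valuation.leIdeal ν ε) (J := J ^ 2)
    (fun z => by
      obtain ⟨r, hr⟩ := hs2 z.1 z.2
      exact ⟨r, hr⟩) (fun r => hk2 r) hq
  exact hno x' s' q' h4

end abs

end Pool.Agent.Helper82.SY
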