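import Pool.Agent.Helper82.SY.Lcl
import Pool.Agent.Helper82.TU.Cnt
import Pool.Graph.R_pool_sql_team_seeded_63374d34.N874.TF.Fin

/-!
# Project SY (helper82): sections over a number field with trivial 2-Selmer group
-/

set_option autoImplicit false
set_option linter.all false

open Polynomial IsDedekindDomain NumberField
open scoped Classical

namespace Pool.Agent.Helper82.SY

open Pool.Agent.TH954
open Pool.Agent.W620.SC (unramified)
open Pool.Agent.N783.PF (fF rd)
open Pool.Agent.N783.PQ (LocIm)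
open Pool.Agent.N874.TF (fM)
open Pool.Agent.N874.QM (SelM)

section real

variable {M : Type} [Field M] [NumberField M]

/-- The condition at the real places. -/
theorem real_loc {g : ℕ} {f h : M[X]} (hm : f.Monic) (hd : f.natDegree = 2 * g + 1)
    (hs : f.Separable) (hmo : ∀ (ρ : M →+* ℝ) (x : ℝ), 0 < (derivative (f.map ρ)).eval x)
    (hcop : IsCoprime h f) (hsq : IsSquare (Algebra.norm M (AdjoinRoot.mk f h))) (ρ : M →+* ℝ) :
    LocIm ℝ (f.map ρ) (h.map ρ) := by
  have hcop' : IsCoprime (h.map ρ) (f.map ρ) := by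
    have h4 := hcop.map (Polynomial.mapRingHom ρ)
    rw [Polynomial.coe_mapRingHom] at h4
    exact h4
  have e : Algebra.norm ℝ (AdjoinRoot.mk (f.map ρ) (h.map ρ)) =
      ρ (Algebra.norm M (AdjoinRoot.mk f h)) := by
    have e1 := Pool.Agent.N271.PQ.det_Gm (h := h.map ρ) (hm.map ρ) (by
      rw [hm.natDegree_map, hd])
    rw [Pool.Agent.N591.PF.Gm_map ρ g hm, ← RingHom.mapMatrix_apply, ← RingHom.map_det,
      Pool.Agent.N271.PQ.det_Gm hm hd, map_mul, map_pow, map_neg, map_one] at e1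
    exact (mul_left_cancel₀ (pow_ne_zero g (neg_ne_zero.2 one_ne_zero)) e1).symm
  obtain ⟨s, hs⟩ := Pool.Agent.N615.TF.one g (f.map ρ) (h.map ρ) (hm.map _) (by
    rw [hm.natDegree_map, hd]) (hmo ρ) (hs.map (f := ρ)).squarefree hcop' (by
    rw [e]
    exact hsq.map ρ)
  exact ⟨[], s, fun p hp => absurd hp (List.not_mem_nil), by
    rw [List.map_nil, List.prod_nil, mul_one]
    exact hs⟩

end real

section core

variable {K : Type} [Field K] [NumberField K]
variable {F Ω M B : Type} [Field F] [Field Ω] [Field M]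
  [Field B] [Algebra K F] [Algebra F Ω] [Algebra K Ω] [IsScalarTower K F Ω] [Algebra F M]
  [Algebra K M] [IsScalarTower K F M] [Algebra K B] [IsAlgClosure F Ω] [IsAlgClosure K B]

/-- **Sections modulo two.** -/
theorem sec_core {f : K[X]} (hm : f.Monic) (hirr : Irreducible f) {g : ℕ} (hg : 1 ≤ g)
    (hd : f.natDegree = 2 * g + 1) (hsel : SelM K f)
    (hmo : ∀ (ρ : K →+* ℝ) (x : ℝ), 0 < (derivative (f.map ρ)).eval x)
    (U : Set (ValuationSubring F)) (hU : ∀ O ∈ U, ∀ c : K, algebraMap K F c ∈ O)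
    (e : M →ₐ[F] Ω) (he : unramified F Ω U ≤ e.fieldRange) {x y : F} (hxy : y ^ 2 = aeval x f)
    (s : GalSection K F M B)
    (hs : ∀ v : HeightOneSpectrum (𝓞 K),
      s.GeometricOver (v.adicCompletion K) (AlgebraicClosure (v.adicCompletion K))) :
    ∃ r : B → M, (∀ θ : B, aeval θ f = 0 → r θ ^ 2 = algebraMap F M x - s.j θ) ∧
      ∀ (γ : B ≃ₐ[K] B) (θ : B), aeval θ f = 0 → s.s γ (r θ) = r (γ θ) := by
  have hΩ1 : IsAlgClosed Ω := IsAlgClosure.isAlgClosed F
  have hΩ2 : Algebra.IsAlgebraic F Ω := IsAlgClosure.isAlgebraic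
  have hMalg : Algebra.IsAlgebraic F M := Algebra.IsAlgebraic.of_injective e e.injective
  have hsep : f.Separable := hirr.separable
  set A := toSAct s with hA
  have hAF : ∀ (τ : AlgebraicClosure K ≃ₐ[K] AlgebraicClosure K) (z : F),
      A.s τ (algebraMap F M z) = algebraMap F M z :=
    fun τ z => (s.s ((eqv K B).autCongr τ)).commutes z
  have hXY : (algebraMap F M y) ^ 2 = aeval (algebraMap F M x) f := by
    rw [← map_pow, hxy, aeval_algebraMap_apply]
  have hy : y ≠ 0 := by
    rintro rfl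
    rw [map_zero, zero_pow (by norm_num)] at hXY
    obtain ⟨θ, hθ, hθx⟩ := root_lift A.j hm hXY.symm
    have h1 : θ ∈ (⊥ : IntermediateField K (AlgebraicClosure K)) := by
      refine fixed_mem _ fun σ _ => ?_
      have h2 : A.j (σ θ) = A.j θ := by rw [← A.hj, hθx, hAF]
      exact A.j.injective h2
    obtain ⟨c, hc⟩ := IntermediateField.mem_bot.1 h1
    rw [← hc, aeval_algebraMap_apply, map_eq_zero, coe_aeval_eq_eval] at hθ
    have h3 := degree_eq_one_of_irreducible_of_root hirr hθ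
    have h4 := natDegree_eq_of_degree_eq_some h3
    rw [hd] at h4
    have h5 : 2 * g + 1 = 1 := h4
    omega
  have hY0 : algebraMap F M y ≠ 0 := (_root_.map_ne_zero _).2 hy
  have hrt : ∀ θ : AlgebraicClosure K, aeval θ f = 0 → aeval (A.j θ) f = 0 := fun θ hθ => by
    rw [aeval_algHom_apply, hθ, map_zero]
  have hne : ∀ θ : AlgebraicClosure K, aeval θ f = 0 → algebraMap F M x - A.j θ ≠ 0 := by
    intro θ hθ h0
    rw [sub_eq_zero.1 h0, hrt θ hθ] at hXY
    exact pow_ne_zero 2 hY0 hXY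
  obtain ⟨h, W, h1, h2, h3⟩ := exists_family A hm hirr (hAF · x) hne (fun θ hθ =>
    exists_root hm hsep hd hxy hy U hU e he (hrt θ hθ))
  have D : Dat A f h (algebraMap F M x) (algebraMap F M y) W g :=
    ⟨hm, hsep, hd, (hAF · x), (hAF · y), hXY, hY0, h1, h2, h3⟩
  obtain ⟨z, hz⟩ := norm_sq A hm hsep (hAF · x) (hAF · y) hXY hY0 h2 h3
  have hsq : IsSquare (Algebra.norm K (AdjoinRoot.mk f h)) := ⟨z, by rw [hz, sq]⟩
  have hcop : IsCoprime h f := by
    refine ((hirr.coprime_iff_not_dvd).2 fun hdv => ?_).symm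
    obtain ⟨θ, hθ⟩ := IsAlgClosed.exists_aeval_eq_zero (AlgebraicClosure K) f
      (degree_pos_of_irreducible hirr).ne'
    obtain ⟨q, hq⟩ := hdv
    apply h1 θ hθ
    rw [hq, map_mul, hθ, zero_mul]
  obtain ⟨t, ht⟩ := hsel h hcop hsq (fun w => by
    haveI : CharZero (w.adicCompletion K) :=
      charZero_of_injective_algebraMap (algebraMap K (w.adicCompletion K)).injective
    obtain ⟨pl, hpl⟩ := toSAct_geo s (hs w)
    exact D.loc hg hpl) (fun ρ => real_loc hm hd hsep hmo hcop hsq ρ)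
  have ht' : ∀ θ : AlgebraicClosure K, aeval θ f = 0 → aeval θ h = (aeval θ t) ^ 2 := by
    intro θ hθ
    obtain ⟨q, hq⟩ := ht
    have h4 : aeval θ (h - t ^ 2) = 0 := by rw [hq, map_mul, hθ, zero_mul]
    rw [map_sub, map_pow] at h4
    exact sub_eq_zero.1 h4
  refine ⟨fun b => W ((eqv K B).symm b) / A.j (aeval ((eqv K B).symm b) t), fun b hb => ?_,
    fun γ b hb => ?_⟩
  · have hθ : aeval ((eqv K B).symm b) f = 0 := by
      have h4 := aeval_algHom_apply ((eqv K B).symm : B →ₐ[K] AlgebraicClosure K) b f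
      rw [hb, map_zero] at h4
      exact h4
    have h0 : A.j (aeval ((eqv K B).symm b) h) ≠ 0 := (_root_.map_ne_zero _).2 (h1 _ hθ)
    have h5 : s.j b = A.j ((eqv K B).symm b) := by
      change s.j b = s.j (eqv K B ((eqv K B).symm b))
      rw [AlgEquiv.apply_symm_apply]
    change (W ((eqv K B).symm b) / A.j (aeval ((eqv K B).symm b) t)) ^ 2 = _
    rw [div_pow, h2 _ hθ, ← map_pow, ← ht' _ hθ, mul_div_assoc, mul_comm, div_mul_cancel₀ _ h0, h5]
  · have hθ : aeval ((eqv K B).symm b) f = 0 := by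
      have h4 := aeval_algHom_apply ((eqv K B).symm : B →ₐ[K] AlgebraicClosure K) b f
      rw [hb, map_zero] at h4
      exact h4
    change s.s γ (W ((eqv K B).symm b) / A.j (aeval ((eqv K B).symm b) t)) =
      W ((eqv K B).symm (γ b)) / A.j (aeval ((eqv K B).symm (γ b)) t)
    rw [← toSAct_s s γ]
    have e1 : (eqv K B).symm (γ b) = (eqv K B).autCongr.symm γ ((eqv K B).symm b) := by
      change _ = (eqv K B).symm (γ (eqv K B ((eqv K B).symm b)))
      rw [AlgEquiv.apply_symm_apply]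
    have e2 : aeval ((eqv K B).autCongr.symm γ ((eqv K B).symm b)) t =
        (eqv K B).autCongr.symm γ (aeval ((eqv K B).symm b) t) :=
      aeval_algHom_apply ((eqv K B).autCongr.symm γ : AlgebraicClosure K →ₐ[K] AlgebraicClosure K)
        ((eqv K B).symm b) t
    rw [e1, e2, map_div₀, A.hj, h3 _ _ hθ]

end core

section main

variable {F M : Type} [Field F] [NumberField F] [Field M] [NumberField M] [Algebra F M]

/-- **Sections modulo two over the fields of the class.** -/
theorem sec_fin [IsGalois F M] {n : ℕ} (hM : Module.finrank F M = 2 ^ n) {f : (𝓞 F)[X]} {g : ℕ}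
    (hg : 1 ≤ g) (hm : f.Monic) (hd : f.natDegree = 2 * g + 1)
    (hirr : Irreducible (fF f)) (hsel : SelM M (fM M f))
    (hmo : Pool.Agent.Helper82.TU.MonoF f)
    {L Ω N B : Type} [Field L] [Field Ω] [Field N]
    [Field B] [Algebra M L] [Algebra L Ω] [Algebra M Ω] [IsScalarTower M L Ω] [Algebra L N]
    [Algebra M N] [IsScalarTower M L N] [Algebra M B] [IsAlgClosure L Ω] [IsAlgClosure M B]
    (U : Set (ValuationSubring L)) (hU : ∀ O ∈ U, ∀ c : M, algebraMap M L c ∈ O)
    (e : N →ₐ[L] Ω) (he : unramified L Ω U ≤ e.fieldRange) {x y : L}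
    (hxy : y ^ 2 = aeval x (fM M f)) (s : GalSection M L N B)
    (hs : ∀ v : HeightOneSpectrum (𝓞 M),
      s.GeometricOver (v.adicCompletion M) (AlgebraicClosure (v.adicCompletion M))) :
    ∃ r : B → N, (∀ θ : B, aeval θ (fM M f) = 0 → r θ ^ 2 = algebraMap L N x - s.j θ) ∧
      ∀ (γ : B ≃ₐ[M] B) (θ : B), aeval θ (fM M f) = 0 → s.s γ (r θ) = r (γ θ) := by
  have hmK : (fF f).Monic := hm.map _
  have hdK : (fF f).natDegree = 2 * g + 1 := by rw [fF, hm.natDegree_map, hd]
  have hiM : Irreducible (fM M f) := Pool.Agent.N874.JM.irr_up hM hirr hmK (by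
    rw [hdK]
    exact odd_two_mul_add_one g)
  refine sec_core (hmK.map _) hiM hg (by rw [hmK.natDegree_map, hdK]) hsel (fun ρ x => ?_) U hU e he
    hxy s hs
  have e1 : (fM M f).map ρ = (fF f).map (ρ.comp (algebraMap F M)) := Polynomial.map_map _ _ _
  rw [e1]
  exact hmo (ρ.comp (algebraMap F M)) x

end main

end Pool.Agent.Helper82.SY
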