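import Pool.Agent.Helper82.SY.Nsq

/-!
# Project SY (helper82): the residues of `f` with the condition `NoSq` at the primes over two
-/

set_option autoImplicit false
set_option linter.all false

open Polynomial NumberField IsDedekindDomain
open scoped Classical

namespace Pool.Agent.Helper82.SY

open Pool.Agent.N352.PF (rv)
open Pool.Agent.N783.PF (rd)
open Pool.Agent.N300.TF (gfi)

variable {F : Type} [Field F] [NumberField F]

theorem crt2 (T : Finset (HeightOneSpectrum (𝓞 F))) (t : HeightOneSpectrum (𝓞 F) → 𝓞 F) :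
    ∃ e : 𝓞 F, ∀ v ∈ T, e - t v ∈ v.asIdeal ^ 2 := by
  obtain ⟨e, he⟩ := IsDedekindDomain.exists_forall_sub_mem_ideal (s := T)
    (fun v : HeightOneSpectrum (𝓞 F) => v.asIdeal) (fun _ => 2) (fun v _ => v.prime)
    (fun v _ v' _ hne h => hne (HeightOneSpectrum.ext h)) (fun v => t v.1)
  exact ⟨e, fun v hv => he v hv⟩

theorem gfi3 (hI : Pool.Agent.N874.TF.S_IRRK) (F : Type) [Field F] [NumberField F] (g M : ℕ)
    (hg : 1 ≤ g) :
    ∃ (W : ℕ) (f₁ : (𝓞 F)[X]), f₁.Monic ∧ f₁.natDegree = 2 * g + 1 ∧ f₁.coeff (2 * g) = 0 ∧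
      0 < W ∧ 2 ∣ W ∧
      (∀ v : HeightOneSpectrum (𝓞 F), (W : 𝓞 F) ∈ v.asIdeal → Irreducible (rv v f₁)) ∧
      (∀ v : HeightOneSpectrum (𝓞 F), (W : 𝓞 F) ∈ v.asIdeal → (rv v f₁).Separable) ∧
      (∀ p : ℕ, p.Prime → p ≤ M → p ∣ W) ∧
      (∀ v : HeightOneSpectrum (𝓞 F), (2 : 𝓞 F) ∈ v.asIdeal → (W : 𝓞 F) ∈ v.asIdeal ^ 2) ∧
      ∀ v : HeightOneSpectrum (𝓞 F), (2 : 𝓞 F) ∈ v.asIdeal → NoSq v f₁ := by
  obtain ⟨W, f₁, h1, h2, h3, h4, h5, h6, h7, h8⟩ := gfi hI F g M hg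
  have h2W : ∀ v : HeightOneSpectrum (𝓞 F), (2 : 𝓞 F) ∈ v.asIdeal → (W : 𝓞 F) ∈ v.asIdeal := by
    intro v hv
    obtain ⟨m, hm⟩ := h5
    rw [hm, Nat.cast_mul, Nat.cast_ofNat]
    exact Ideal.mul_mem_right _ _ hv
  have hWne : Ideal.span {(W : 𝓞 F)} ≠ 0 := by
    rw [Ne, Ideal.zero_eq_bot, Ideal.span_singleton_eq_bot]
    exact_mod_cast h4.ne'
  have hfinS := Ideal.finite_factors hWne
  set T : Finset (HeightOneSpectrum (𝓞 F)) := hfinS.toFinset with hT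
  have hmem : ∀ v : HeightOneSpectrum (𝓞 F), (W : 𝓞 F) ∈ v.asIdeal → v ∈ T := by
    intro v hv
    rw [hT, Set.Finite.mem_toFinset, Set.mem_setOf_eq, Ideal.dvd_span_singleton]
    exact hv
  have hc : ∀ v : HeightOneSpectrum (𝓞 F), ∃ c₀ c₁ : 𝓞 F, c₀ ∈ v.asIdeal ∧ c₁ ∈ v.asIdeal ∧
      ((2 : 𝓞 F) ∈ v.asIdeal → NoSq v (f₁ + (C c₁ * X + C c₀))) := by
    intro v
    by_cases h : (2 : 𝓞 F) ∈ v.asIdeal
    · obtain ⟨c₀, c₁, k1, k2, k3⟩ := exists_nosq hg h h1 h2 (h6 v (h2W v h))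
      exact ⟨c₀, c₁, k1, k2, fun _ => k3⟩
    · exact ⟨0, 0, Ideal.zero_mem _, Ideal.zero_mem _, fun h' => absurd h' h⟩
  choose c₀ c₁ hc0 hc1 hcn using hc
  obtain ⟨e₀, he₀⟩ := crt2 T c₀
  obtain ⟨e₁, he₁⟩ := crt2 T c₁
  have hin : ∀ v : HeightOneSpectrum (𝓞 F), (W : 𝓞 F) ∈ v.asIdeal →
      e₀ ∈ v.asIdeal ∧ e₁ ∈ v.asIdeal := by
    intro v hv
    constructor
    · have e : e₀ = (e₀ - c₀ v) + c₀ v := by ring
      rw [e]
      exact Ideal.add_mem _ (Ideal.pow_le_self two_ne_zero (he₀ v (hmem v hv))) (hc0 v)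
    · have e : e₁ = (e₁ - c₁ v) + c₁ v := by ring
      rw [e]
      exact Ideal.add_mem _ (Ideal.pow_le_self two_ne_zero (he₁ v (hmem v hv))) (hc1 v)
  have hrv : ∀ v : HeightOneSpectrum (𝓞 F), (W : 𝓞 F) ∈ v.asIdeal →
      rv v (f₁ + (C e₁ * X + C e₀)) = rv v f₁ := by
    intro v hv
    have k0 : Ideal.Quotient.mk v.asIdeal e₀ = 0 := Ideal.Quotient.eq_zero_iff_mem.2 (hin v hv).1
    have k1 : Ideal.Quotient.mk v.asIdeal e₁ = 0 := Ideal.Quotient.eq_zero_iff_mem.2 (hin v hv).2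
    unfold rv
    simp only [Polynomial.map_add, Polynomial.map_mul, Polynomial.map_X,
      Polynomial.map_C, k0, k1, C_0, zero_mul, add_zero]
  have hlt : (C e₁ * X + C e₀ : (𝓞 F)[X]).degree < f₁.degree := by
    refine lt_of_le_of_lt degree_linear_le ?_
    rw [degree_eq_natDegree h1.ne_zero, h2]
    exact_mod_cast (by omega : 1 < 2 * g + 1)
  have hm' : (f₁ + (C e₁ * X + C e₀)).Monic := h1.add_of_left hlt
  have hd' : (f₁ + (C e₁ * X + C e₀)).natDegree = 2 * g + 1 := by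
    rw [natDegree_eq_of_degree_eq (degree_add_eq_left_of_degree_lt hlt), h2]
  have hW' : ∀ v : HeightOneSpectrum (𝓞 F), ((2 * W : ℕ) : 𝓞 F) ∈ v.asIdeal →
      (W : 𝓞 F) ∈ v.asIdeal := by
    intro v hv
    rw [Nat.cast_mul, Nat.cast_ofNat] at hv
    rcases v.isPrime.mem_or_mem hv with h | h
    · exact h2W v h
    · exact h
  refine ⟨2 * W, f₁ + (C e₁ * X + C e₀), hm', hd', ?_, by omega,
    Dvd.intro _ rfl, ?_, ?_, fun p hp hpM => Dvd.dvd.mul_left (h8 p hp hpM) 2, ?_, ?_⟩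
  · rw [coeff_add, h3, zero_add]
    refine coeff_eq_zero_of_degree_lt (lt_of_le_of_lt degree_linear_le ?_)
    exact_mod_cast (by omega : 1 < 2 * g)
  · intro v hv
    rw [hrv v (hW' v hv)]
    exact h6 v (hW' v hv)
  · intro v hv
    rw [hrv v (hW' v hv)]
    exact h7 v (hW' v hv)
  · intro v hv
    rw [Nat.cast_mul, Nat.cast_ofNat, pow_two]
    exact Ideal.mul_mem_mul hv (h2W v hv)
  · intro v hv
    refine (hcn v hv).congr ?_
    have e : f₁ + (C e₁ * X + C e₀) - (f₁ + (C (c₁ v) * X + C (c₀ v))) =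
        C (e₁ - c₁ v) * X + C (e₀ - c₀ v) := by
      rw [C_sub, C_sub]
      ring
    rw [e]
    exact Ideal.add_mem _ (Ideal.mul_mem_right _ _
      (Ideal.mem_map_of_mem _ (he₁ v (hmem v (h2W v hv)))))
      (Ideal.mem_map_of_mem _ (he₀ v (hmem v (h2W v hv))))

end Pool.Agent.Helper82.SY
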