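import Pool.Agent.Helper82.SY.Unr
import Pool.Graph.R_pool_sql_team_seeded_63374d34.N615.JB.Alg
import Pool.Graph.R_seed8.W620.SC.Core

/-!
# Project SY (helper82): the square roots of `x - θ` under the action given by a section
-/

set_option autoImplicit false
set_option linter.all false

open Polynomial IntermediateField
open scoped Classical

namespace Pool.Agent.Helper82.SY

open Pool.Agent.TH954 (SAct)
open Pool.Agent.W620.SC (exists_fixed_multiple)

/-- forgetting the algebra structure -/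
def toRing (F M : Type) [Field F] [Field M] [Algebra F M] : (M ≃ₐ[F] M) →* RingAut M where
  toFun := fun e => e.toRingEquiv
  map_one' := rfl
  map_mul' := fun _ _ => rfl

section fam

variable {K M : Type} [Field K] [CharZero K] [Field M] [Algebra K M] (A : SAct K M)

theorem exists_poly {θ z : AlgebraicClosure K} (h : z ∈ K⟮θ⟯) : ∃ p : K[X], aeval θ p = z := by
  have h1 : z ∈ K⟮θ⟯.toSubalgebra := h
  rw [adjoin_simple_toSubalgebra_of_isAlgebraic (Algebra.IsAlgebraic.isAlgebraic θ),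
    Algebra.adjoin_singleton_eq_range_aeval] at h1
  exact h1

theorem fixed_mem (E : IntermediateField K (AlgebraicClosure K)) {z : AlgebraicClosure K}
    (h : ∀ σ ∈ E.fixingSubgroup, σ z = z) : z ∈ E := by
  have h1 := InfiniteGalois.fixedField_fixingSubgroup (k := K) (K := AlgebraicClosure K) E
  rw [← h1, mem_fixedField_iff]
  exact h

/-- **The family.** -/
theorem exists_family {f : K[X]} (hm : f.Monic) (hirr : Irreducible f) {X : M}
    (hX : ∀ τ, A.s τ X = X) (hne : ∀ θ : AlgebraicClosure K, aeval θ f = 0 → X - A.j θ ≠ 0)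
    (hw : ∀ θ : AlgebraicClosure K, aeval θ f = 0 → ∃ w : M, w ^ 2 = X - A.j θ) :
    ∃ (h : K[X]) (W : AlgebraicClosure K → M),
      (∀ θ : AlgebraicClosure K, aeval θ f = 0 → aeval θ h ≠ 0) ∧
      (∀ θ : AlgebraicClosure K, aeval θ f = 0 → W θ ^ 2 = A.j (aeval θ h) * (X - A.j θ)) ∧
      ∀ (τ : AlgebraicClosure K ≃ₐ[K] AlgebraicClosure K) (θ : AlgebraicClosure K),
        aeval θ f = 0 → A.s τ (W θ) = W (τ θ) := by
  obtain ⟨θ₀, hθ₀⟩ := IsAlgClosed.exists_aeval_eq_zero (AlgebraicClosure K) f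
    (degree_pos_of_irreducible hirr).ne'
  have hmin : minpoly K θ₀ = f := (minpoly.eq_of_irreducible_of_monic hirr hθ₀ hm).symm
  obtain ⟨w, hw2⟩ := hw θ₀ hθ₀
  have hw0 : w ≠ 0 := by
    rintro rfl
    apply hne θ₀ hθ₀
    rw [← hw2]
    ring
  obtain ⟨E, hE, hEw⟩ := A.cont w
  have hmul : ∀ σ τ z, A.s (σ * τ) z = A.s σ (A.s τ z) := fun σ τ z => by
    rw [map_mul]
    rfl
  have hfix : ∀ σ ∈ K⟮θ₀⟯.fixingSubgroup, σ θ₀ = θ₀ := fun σ hσ =>
    (mem_fixingSubgroup_iff _ _).1 hσ θ₀ (mem_adjoin_simple_self K θ₀)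
  have hsw : ∀ σ ∈ K⟮θ₀⟯.fixingSubgroup, ∃ ζ : AlgebraicClosure K, A.s σ w = A.j ζ * w := by
    intro σ hσ
    have h1 : A.s σ w ^ 2 = w ^ 2 := by
      rw [← map_pow, hw2, map_sub, hX, A.hj, hfix σ hσ]
    rcases sq_eq_sq_iff_eq_or_eq_neg.1 h1 with h | h
    · exact ⟨1, by rw [h, map_one, one_mul]⟩
    · exact ⟨-1, by rw [h, map_neg, map_one, neg_one_mul]⟩
  obtain ⟨β, hβ0, hβ⟩ := exists_fixed_multiple (k := K) (A := AlgebraicClosure K)
    ((toRing K M).comp A.s) (A.j : AlgebraicClosure K →+* M) (fun σ a => A.hj σ a)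
    K⟮θ₀⟯.fixingSubgroup w hw0 hsw E (fun σ hσ => hEw σ fun z hz =>
      (mem_fixingSubgroup_iff _ _).1 hσ z hz)
  have hβ' : ∀ σ ∈ K⟮θ₀⟯.fixingSubgroup, A.s σ (A.j β * w) = A.j β * w := hβ
  set w₁ : M := A.j β * w with hw₁
  have hw₁2 : w₁ ^ 2 = A.j (β ^ 2) * (X - A.j θ₀) := by
    rw [hw₁, mul_pow, hw2, map_pow]
  have hβ2 : β ^ 2 ∈ K⟮θ₀⟯ := by
    refine fixed_mem _ fun σ hσ => ?_
    have h1 := congrArg (A.s σ) hw₁2
    rw [map_pow, hβ' σ hσ, map_mul, map_sub, hX, A.hj, A.hj, hfix σ hσ, hw₁2] at h1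
    exact (A.j.injective (mul_right_cancel₀ (hne θ₀ hθ₀) h1)).symm
  obtain ⟨h, hh⟩ := exists_poly hβ2
  have hex : ∀ θ : AlgebraicClosure K, aeval θ f = 0 →
      ∃ τ : AlgebraicClosure K ≃ₐ[K] AlgebraicClosure K, τ θ₀ = θ := by
    intro θ hθ
    refine minpoly.exists_algEquiv_of_root' (Algebra.IsAlgebraic.isAlgebraic θ₀) ?_
    rw [hmin]
    exact hθ
  have hwell : ∀ τ τ' : AlgebraicClosure K ≃ₐ[K] AlgebraicClosure K, τ θ₀ = τ' θ₀ →
      A.s τ w₁ = A.s τ' w₁ := by
    intro τ τ' he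
    have h1 : τ'⁻¹ * τ ∈ K⟮θ₀⟯.fixingSubgroup := by
      have h2 : K⟮θ₀⟯ ≤ fixedField (Subgroup.zpowers (τ'⁻¹ * τ)) := by
        rw [adjoin_simple_le_iff, mem_fixedField_iff]
        intro σ hσ
        have h4 : Subgroup.zpowers (τ'⁻¹ * τ) ≤
            MulAction.stabilizer (AlgebraicClosure K ≃ₐ[K] AlgebraicClosure K) θ₀ := by
          rw [Subgroup.zpowers_le]
          change τ'⁻¹ (τ θ₀) = θ₀
          rw [he]
          exact τ'.symm_apply_apply θ₀
        exact h4 hσ
      rw [IntermediateField.mem_fixingSubgroup_iff]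
      intro z hz
      have h5 := h2 hz
      rw [mem_fixedField_iff] at h5
      exact h5 _ (Subgroup.mem_zpowers _)
    have h3 := congrArg (A.s τ') (hβ' _ h1)
    rw [← hmul, mul_inv_cancel_left] at h3
    exact h3
  choose! T hT using hex
  refine ⟨h, fun θ => A.s (T θ) w₁, fun θ hθ => ?_, fun θ hθ => ?_, fun τ θ hθ => ?_⟩
  · rw [← hT θ hθ]
    have h1 : aeval (T θ θ₀) h = T θ (aeval θ₀ h) :=
      aeval_algHom_apply (T θ : AlgebraicClosure K →ₐ[K] AlgebraicClosure K) θ₀ h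
    rw [h1, hh, Ne, map_eq_zero]
    exact pow_ne_zero _ hβ0
  · have h1 : aeval (T θ θ₀) h = T θ (aeval θ₀ h) :=
      aeval_algHom_apply (T θ : AlgebraicClosure K →ₐ[K] AlgebraicClosure K) θ₀ h
    change A.s (T θ) w₁ ^ 2 = _
    rw [← map_pow, hw₁2, map_mul, map_sub, hX, A.hj, A.hj, hT θ hθ, ← hh, ← h1, hT θ hθ]
  · have hτθ : aeval (τ θ) f = 0 := by
      have h1 := aeval_algHom_apply (τ : AlgebraicClosure K →ₐ[K] AlgebraicClosure K) θ f
      rw [hθ, map_zero] at h1
      exact h1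
    change A.s τ (A.s (T θ) w₁) = A.s (T (τ θ)) w₁
    rw [← hmul]
    apply hwell
    change τ (T θ θ₀) = T (τ θ) θ₀
    rw [hT θ hθ, hT _ hτθ]

end fam

section norm

variable {K M : Type} [Field K] [CharZero K] [Field M] [Algebra K M] (A : SAct K M)

/-- the product over the roots -/
theorem prod_roots {f : K[X]} (hm : f.Monic) (X : M) :
    ((f.map (algebraMap K (AlgebraicClosure K))).roots.map fun θ => X - A.j θ).prod = aeval X f := by
  have hsp : (f.map (algebraMap K (AlgebraicClosure K))).Splits := IsAlgClosed.splits _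
  have h1 : f.map (algebraMap K M) =
      (f.map (algebraMap K (AlgebraicClosure K))).map (A.j : AlgebraicClosure K →+* M) := by
    rw [Polynomial.map_map]
    congr 1
    exact A.j.comp_algebraMap.symm
  rw [← eval_map_algebraMap, h1]
  conv_rhs => rw [hsp.eq_prod_roots_of_monic (hm.map _)]
  rw [Polynomial.map_multiset_prod, eval_multiset_prod, Multiset.map_map, Multiset.map_map]
  congr 1
  refine Multiset.map_congr rfl fun r _ => ?_
  simp only [Function.comp_apply, Polynomial.map_sub, map_X, map_C, eval_sub, eval_X, eval_C]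
  rfl

/-- **The norm is a square.** -/
theorem norm_sq {f : K[X]} (hm : f.Monic) (hs : f.Separable) {X Y : M} (hX : ∀ τ, A.s τ X = X)
    (hY : ∀ τ, A.s τ Y = Y) (hXY : Y ^ 2 = aeval X f) (hY0 : Y ≠ 0) {h : K[X]}
    {W : AlgebraicClosure K → M}
    (h2 : ∀ θ : AlgebraicClosure K, aeval θ f = 0 → W θ ^ 2 = A.j (aeval θ h) * (X - A.j θ))
    (h3 : ∀ (τ : AlgebraicClosure K ≃ₐ[K] AlgebraicClosure K) (θ : AlgebraicClosure K),
      aeval θ f = 0 → A.s τ (W θ) = W (τ θ)) :
    ∃ z : K, Algebra.norm K (AdjoinRoot.mk f h) = z ^ 2 := by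
  have hsp : (f.map (algebraMap K (AlgebraicClosure K))).Splits := IsAlgClosed.splits _
  have hnd : (f.map (algebraMap K (AlgebraicClosure K))).roots.Nodup := nodup_roots (hs.map)
  have hmem : ∀ θ : AlgebraicClosure K,
      θ ∈ (f.map (algebraMap K (AlgebraicClosure K))).roots ↔ aeval θ f = 0 := by
    intro θ
    rw [mem_roots (hm.map _).ne_zero, IsRoot.def, eval_map_algebraMap]
  set N := Algebra.norm K (AdjoinRoot.mk f h) with hN
  have hNp := Pool.Agent.N615.JB.nrm K (AlgebraicClosure K) f h hm hsp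
  set P : M := ((f.map (algebraMap K (AlgebraicClosure K))).roots.map W).prod with hP
  have hP2 : P ^ 2 = algebraMap K M N * Y ^ 2 := by
    rw [hP, ← Multiset.prod_map_pow, hXY, ← prod_roots A hm X]
    have e1 : algebraMap K M N = A.j (algebraMap K (AlgebraicClosure K) N) := (A.j.commutes N).symm
    rw [e1, hN, hNp, map_multiset_prod, Multiset.map_map, ← Multiset.prod_map_mul]
    congr 1
    refine Multiset.map_congr rfl fun θ hθ => ?_
    exact h2 θ ((hmem θ).1 hθ)
  have hPf : ∀ τ, A.s τ P = P := by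
    intro τ
    have e1 : P = ∏ θ ∈ (f.map (algebraMap K (AlgebraicClosure K))).roots.toFinset, W θ := by
      rw [hP, Finset.prod, Multiset.toFinset_val, Multiset.dedup_eq_self.2 hnd]
    rw [e1, map_prod]
    refine Finset.prod_equiv τ.toEquiv (fun θ => ?_) (fun θ hθ => ?_)
    · rw [Multiset.mem_toFinset, Multiset.mem_toFinset, hmem, hmem]
      have h1 := aeval_algHom_apply (τ : AlgebraicClosure K →ₐ[K] AlgebraicClosure K) θ f
      have h4 : aeval (τ θ) f = τ (aeval θ f) := h1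
      change _ ↔ aeval (τ θ) f = 0
      rw [h4]
      exact (_root_.map_eq_zero τ).symm
    · rw [Multiset.mem_toFinset, hmem] at hθ
      exact h3 τ θ hθ
  set t : M := P / Y with ht
  have ht2 : t ^ 2 = algebraMap K M N := by
    rw [ht, div_pow, hP2, mul_div_assoc, div_self (pow_ne_zero _ hY0), mul_one]
  have htf : ∀ τ, A.s τ t = t := fun τ => by rw [ht, map_div₀, hPf, hY]
  obtain ⟨z, hz⟩ := IsAlgClosed.exists_pow_nat_eq (algebraMap K (AlgebraicClosure K) N) (n := 2)
    (by norm_num)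
  obtain ⟨z', hz', hz2⟩ : ∃ z', A.j z' = t ∧ z' ^ 2 = algebraMap K (AlgebraicClosure K) N := by
    have h1 : (A.j z) ^ 2 = t ^ 2 := by
      rw [← map_pow, hz, ht2]
      exact A.j.commutes N
    rcases sq_eq_sq_iff_eq_or_eq_neg.1 h1 with h | h
    · exact ⟨z, h, hz⟩
    · exact ⟨-z, by rw [map_neg, h, neg_neg], by rw [neg_sq, hz]⟩
  have hzf : z' ∈ (⊥ : IntermediateField K (AlgebraicClosure K)) := by
    refine fixed_mem _ fun σ _ => ?_
    have h1 : A.j (σ z') = A.j z' := by rw [← A.hj, hz', htf]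
    exact A.j.injective h1
  obtain ⟨z₀, hz₀⟩ := IntermediateField.mem_bot.1 hzf
  refine ⟨z₀, (algebraMap K (AlgebraicClosure K)).injective ?_⟩
  rw [← hz2, ← hz₀, map_pow]

end norm

end Pool.Agent.Helper82.SY
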