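import Pool.Agent.Helper82.SY.Loc

/-!
# Project SY (helper82): the local condition, three cases
-/

set_option autoImplicit false
set_option linter.all false

open Polynomial
open scoped Classical

namespace Pool.Agent.Helper82.SY

open Pool.Agent.TH954 (SAct Plc GeoPlc Compat exists_compat)
open Pool.Agent.TH954.Plc
open Pool.Agent.N874.JM (LocF)

section loc

variable {K M : Type} [Field K] [CharZero K] [Field M] [Algebra K M] (A : SAct K M)
variable {L : Type} [Field L] [CharZero L] [Algebra K L] {pl : Plc K M (AlgebraicClosure L)}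
variable {f h : K[X]} {X Y : M} {W : AlgebraicClosure K → M} {g : ℕ}

/-- the hypotheses -/
structure Dat (A : SAct K M) (f h : K[X]) (X Y : M) (W : AlgebraicClosure K → M) (g : ℕ) : Prop where
  mon : f.Monic
  sep : f.Separable
  deg : f.natDegree = 2 * g + 1
  fixX : ∀ τ, A.s τ X = X
  fixY : ∀ τ, A.s τ Y = Y
  eqn : Y ^ 2 = aeval X f
  neY : Y ≠ 0
  neh : ∀ θ : AlgebraicClosure K, aeval θ f = 0 → aeval θ h ≠ 0
  sq : ∀ θ : AlgebraicClosure K, aeval θ f = 0 → W θ ^ 2 = A.j (aeval θ h) * (X - A.j θ)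
  act : ∀ (τ : AlgebraicClosure K ≃ₐ[K] AlgebraicClosure K) (θ : AlgebraicClosure K),
    aeval θ f = 0 → A.s τ (W θ) = W (τ θ)

variable {A}

theorem aev_L {p : K[X]} (e : AlgebraicClosure L) :
    aeval e (p.map (algebraMap K L)) = aeval e p := aeval_map_algebraMap L e p

theorem Dat.monL (D : Dat A f h X Y W g) : (f.map (algebraMap K L)).Monic := D.mon.map _

theorem Dat.sepL (D : Dat A f h X Y W g) : (f.map (algebraMap K L)).Separable := D.sep.map

/-- the values of `h` -/
theorem val_h (θ : AlgebraicClosure K) :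
    pl.val (A.j (aeval θ h)) (aeval (pl.iot A.j θ) h) := by
  rw [aeval_algHom_apply (pl.iot A.j) θ h]
  exact val_j (pl := pl) A.j (aeval θ h)

/-- **Poles of `x`.** -/
theorem Dat.pole (D : Dat A f h X Y W g) (hgeo : GeoPlc A pl) (hX : X ∉ pl.W) : LocF L f h := by
  have hX0 : X ≠ 0 := by
    rintro rfl
    exact hX (zero_mem _)
  have hu := val_inv_of_notMem hX
  have hone : ∀ θ : AlgebraicClosure K, pl.val (1 - A.j θ * X⁻¹) 1 := by
    intro θ
    have h1 := (val_one (pl := pl)).sub ((val_j (pl := pl) A.j θ).mul hu)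
    rwa [mul_zero, sub_zero] at h1
  set R := (f.map (algebraMap K (AlgebraicClosure K))).roots with hR
  have hprod : ∀ S : Multiset (AlgebraicClosure K),
      pl.val (S.map fun θ => 1 - A.j θ * X⁻¹).prod 1 := by
    intro S
    induction S using Multiset.induction_on with
    | empty => rw [Multiset.map_zero, Multiset.prod_zero]; exact val_one
    | cons a S ih =>
      rw [Multiset.map_cons, Multiset.prod_cons]
      have := (hone a).mul ih
      rwa [one_mul] at this
  set Dp : M := (R.map fun θ => 1 - A.j θ * X⁻¹).prod with hDp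
  have hDv : pl.val Dp 1 := hprod R
  have hD0 : Dp ≠ 0 := by
    intro h0
    rw [h0] at hDv
    exact one_ne_zero (hDv.unique val_zero)
  have hsp : (f.map (algebraMap K (AlgebraicClosure K))).Splits := IsAlgClosed.splits _
  have hcard : Multiset.card R = 2 * g + 1 := by
    rw [← D.deg, ← D.mon.natDegree_map (algebraMap K (AlgebraicClosure K))]
    exact (hsp.natDegree_eq_card_roots).symm
  have hY2 : Y ^ 2 = X ^ (2 * g + 1) * Dp := by
    rw [D.eqn, ← prod_rts A.j D.mon X, hDp, ← hcard, ← Multiset.card_map (fun _ => X) R,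
      ← Multiset.prod_replicate]
    have e1 : Multiset.replicate (Multiset.card (R.map fun _ => X)) X = R.map fun _ => X := by
      rw [Multiset.map_const', Multiset.card_replicate]
    rw [e1, ← Multiset.prod_map_mul]
    congr 1
    refine Multiset.map_congr rfl fun θ _ => ?_
    rw [mul_sub, mul_one, mul_comm (A.j θ), mul_inv_cancel_left₀ hX0]
  have hZ2 : ∀ θ : AlgebraicClosure K, aeval θ f = 0 →
      (X ^ g / Y * W θ) ^ 2 = A.j (aeval θ h) * (1 - A.j θ * X⁻¹) * Dp⁻¹ := by
    intro θ hθ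
    have hY20 : Y ^ 2 ≠ 0 := pow_ne_zero _ D.neY
    have e1 : (X ^ g / Y * W θ) ^ 2 = (X ^ g) ^ 2 * W θ ^ 2 / Y ^ 2 := by ring
    rw [e1, D.sq θ hθ, hY2]
    have hXp : X ^ (2 * g + 1) = (X ^ g) ^ 2 * X := by ring
    have hXg : X ^ g ≠ 0 := pow_ne_zero _ hX0
    rw [hXp]
    field_simp
  have hv2 : ∀ θ : AlgebraicClosure K, aeval θ f = 0 →
      pl.val ((X ^ g / Y * W θ) ^ 2) (aeval (pl.iot A.j θ) h) := by
    intro θ hθ
    rw [hZ2 θ hθ]
    have h1 := ((val_h (A := A) (pl := pl) (h := h) θ).mul (hone θ)).mul (hDv.inv one_ne_zero)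
    rwa [mul_one, inv_one, mul_one] at h1
  obtain ⟨γ, hγ1, hγ2⟩ := exists_gamma A hgeo D.mon (Z := fun θ => X ^ g / Y * W θ)
    (fun τ θ hθ => by
      change A.s τ (X ^ g / Y * W θ) = X ^ g / Y * W (τ θ)
      rw [map_mul, map_div₀, map_pow, D.fixX, D.fixY, D.act τ θ hθ])
    (fun θ hθ => mem_of_pow_mem (n := 2) (by norm_num) (hv2 θ hθ).mem)
  obtain ⟨s, hs⟩ := desc (L := L) (q := h.map (algebraMap K L)) D.monL D.sepL (γ := γ)
    (fun σ e he => hγ2 σ e (by rwa [aev_L] at he)) (fun e he => by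
      rw [aev_L] at he
      obtain ⟨θ, hθ, rfl⟩ := root_lift (pl.iot A.j) D.mon he
      rw [aev_L]
      exact (hv2 θ hθ).unique ((hγ1 θ hθ).pow 2))
  exact ⟨[], s, fun p hp => absurd hp (List.not_mem_nil), by
    rw [List.map_nil, List.prod_nil, mul_one]
    exact hs⟩

/-- **Affine points.** -/
theorem Dat.affine (D : Dat A f h X Y W g) (hgeo : GeoPlc A pl) (hX : X ∈ pl.W) :
    ∃ (x y : L) (γ : AlgebraicClosure L → AlgebraicClosure L),
      y ^ 2 = (f.map (algebraMap K L)).eval x ∧
      (∀ (σ : AlgebraicClosure L ≃ₐ[L] AlgebraicClosure L) (e : AlgebraicClosure L),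
        aeval e f = 0 → σ (γ e) = γ (σ e)) ∧
      ∀ e : AlgebraicClosure L, aeval e f = 0 →
        γ e ^ 2 = aeval e h * (algebraMap L (AlgebraicClosure L) x - e) := by
  obtain ⟨x, hx⟩ := val_fixed A hgeo D.fixX hX
  have hfx := val_aeval hx f
  have hYm : Y ∈ pl.W := by
    refine mem_of_pow_mem (n := 2) (by norm_num) ?_
    rw [D.eqn]
    exact hfx.mem
  obtain ⟨y, hy⟩ := val_fixed A hgeo D.fixY hYm
  have hv2 : ∀ θ : AlgebraicClosure K, aeval θ f = 0 → pl.val (W θ ^ 2)
      (aeval (pl.iot A.j θ) h * (algebraMap L (AlgebraicClosure L) x - pl.iot A.j θ)) := by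
    intro θ hθ
    rw [D.sq θ hθ]
    exact (val_h (A := A) (pl := pl) (h := h) θ).mul (hx.sub (val_j A.j θ))
  obtain ⟨γ, hγ1, hγ2⟩ := exists_gamma A hgeo D.mon (Z := W) D.act
    (fun θ hθ => mem_of_pow_mem (n := 2) (by norm_num) (hv2 θ hθ).mem)
  refine ⟨x, y, γ, ?_, hγ2, fun e he => ?_⟩
  · apply (algebraMap L (AlgebraicClosure L)).injective
    have h1 := hy.pow 2
    rw [D.eqn] at h1
    have h2 := h1.unique hfx
    rw [map_pow, h2, ← aeval_map_algebraMap L, aeval_algebraMap_apply, coe_aeval_eq_eval]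
  · obtain ⟨θ, hθ, rfl⟩ := root_lift (pl.iot A.j) D.mon he
    exact ((hγ1 θ hθ).pow 2).unique (hv2 θ hθ)

/-- **Affine points which are not branch points.** -/
theorem Dat.gen (D : Dat A f h X Y W g) {x y : L} {γ : AlgebraicClosure L → AlgebraicClosure L}
    (hxy : y ^ 2 = (f.map (algebraMap K L)).eval x) (hy : y ≠ 0)
    (hγ : ∀ (σ : AlgebraicClosure L ≃ₐ[L] AlgebraicClosure L) (e : AlgebraicClosure L),
        aeval e f = 0 → σ (γ e) = γ (σ e))
    (hγ2 : ∀ e : AlgebraicClosure L, aeval e f = 0 →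
        γ e ^ 2 = aeval e h * (algebraMap L (AlgebraicClosure L) x - e)) : LocF L f h := by
  obtain ⟨s, hs⟩ := desc (L := L) (q := h.map (algebraMap K L) * ((-1) ^ 1 * (Polynomial.X - C x)))
    D.monL D.sepL (γ := γ) (fun σ e he => hγ σ e (by rwa [aev_L] at he)) (fun e he => by
      rw [aev_L] at he
      rw [map_mul, aev_L, hγ2 e he, map_mul, map_pow, map_neg, map_one, map_sub, aeval_X, aeval_C]
      ring)
  refine ⟨[(Polynomial.X - C x, C y)], s, fun p hp => ?_, ?_⟩
  · rw [List.mem_singleton] at hp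
    subst hp
    refine ⟨monic_X_sub_C x, ?_, ?_⟩
    · refine ((irreducible_X_sub_C x).coprime_iff_not_dvd).2 fun hd => ?_
      rw [dvd_iff_isRoot, IsRoot.def, ← hxy] at hd
      exact pow_ne_zero 2 hy hd
    · rw [dvd_iff_isRoot, IsRoot.def, eval_sub, eval_pow, eval_C, hxy, sub_self]
  · rw [List.map_singleton, List.prod_singleton, natDegree_X_sub_C]
    exact hs

/-- **Branch points.** -/
theorem Dat.branch (D : Dat A f h X Y W g) (hg : 1 ≤ g) {x : L}
    {γ : AlgebraicClosure L → AlgebraicClosure L}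
    (hx : (f.map (algebraMap K L)).eval x = 0)
    (hγ : ∀ (σ : AlgebraicClosure L ≃ₐ[L] AlgebraicClosure L) (e : AlgebraicClosure L),
        aeval e f = 0 → σ (γ e) = γ (σ e))
    (hγ2 : ∀ e : AlgebraicClosure L, aeval e f = 0 →
        γ e ^ 2 = aeval e h * (algebraMap L (AlgebraicClosure L) x - e)) : LocF L f h := by
  set fL := f.map (algebraMap K L) with hfL
  have hmL : fL.Monic := D.monL
  have hsL : fL.Separable := D.sepL
  obtain ⟨f₁, hf₁⟩ : (Polynomial.X - C x) ∣ fL := dvd_iff_isRoot.2 hx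
  have hm₁ : f₁.Monic := by
    have h1 : ((Polynomial.X - C x) * f₁).Monic := by rw [← hf₁]; exact hmL
    exact (monic_X_sub_C x).of_mul_monic_left h1
  have hd₁ : f₁.natDegree = 2 * g := by
    have h1 := congrArg natDegree hf₁
    rw [(monic_X_sub_C x).natDegree_mul hm₁, natDegree_X_sub_C, hfL, D.mon.natDegree_map, D.deg] at h1
    omega
  set a := algebraMap L (AlgebraicClosure L) x with ha
  have haf : aeval a f = 0 := by
    rw [← aev_L (L := L), ha, aeval_algebraMap_apply, coe_aeval_eq_eval, hx, map_zero]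
  have hfe : ∀ e : AlgebraicClosure L, aeval e fL = (e - a) * aeval e f₁ := by
    intro e
    rw [hf₁, map_mul, map_sub, aeval_X, aeval_C]
  have hf₁a : aeval a f₁ ≠ 0 := by
    intro h0
    have h1 : (Polynomial.X - C x) ∣ f₁ := by
      rw [dvd_iff_isRoot, IsRoot.def]
      apply (algebraMap L (AlgebraicClosure L)).injective
      rw [map_zero, ← h0, ha, aeval_algebraMap_apply, coe_aeval_eq_eval]
    have h2 : (Polynomial.X - C x) * (Polynomial.X - C x) ∣ fL := by
      rw [hf₁]
      exact mul_dvd_mul_left _ h1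
    have h3 := hsL.squarefree _ h2
    exact (irreducible_X_sub_C x).not_isUnit h3
  have hf₁e : ∀ e : AlgebraicClosure L, aeval e f = 0 → e ≠ a → aeval e f₁ = 0 := by
    intro e he hne
    have h1 := hfe e
    rw [hfL, aev_L, he] at h1
    exact (mul_eq_zero.1 h1.symm).resolve_left (sub_ne_zero.2 hne)
  -- the product over the other roots
  set R := (f.map (algebraMap K (AlgebraicClosure L))).roots with hR
  have hmemR : ∀ e, e ∈ R ↔ aeval e f = 0 := by
    intro e
    rw [hR, mem_roots (D.mon.map _).ne_zero, IsRoot.def, eval_map_algebraMap]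
  have hnd : R.Nodup := nodup_roots (D.sep.map)
  have haR : a ∈ R := (hmemR a).2 haf
  set S := R.toFinset.erase a with hS
  have hmemS : ∀ e, e ∈ S ↔ aeval e f = 0 ∧ e ≠ a := by
    intro e
    rw [hS, Finset.mem_erase, Multiset.mem_toFinset, hmemR, and_comm]
  have hRS : ∀ φ : AlgebraicClosure L → AlgebraicClosure L,
      (R.map φ).prod = φ a * ∏ e ∈ S, φ e := by
    intro φ
    have e1 : (R.map φ).prod = ∏ e ∈ R.toFinset, φ e := by
      rw [Finset.prod, Multiset.toFinset_val, Multiset.dedup_eq_self.2 hnd]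
    rw [e1, hS, Finset.mul_prod_erase _ _ (Multiset.mem_toFinset.2 haR)]
  have hf₁p : aeval a f₁ = ∏ e ∈ S, (a - e) := by
    have hsp : (fL.map (algebraMap L (AlgebraicClosure L))).Splits := IsAlgClosed.splits _
    have hsp1 : (f₁.map (algebraMap L (AlgebraicClosure L))).Splits := IsAlgClosed.splits _
    have h1 := prod_rts (Kb := AlgebraicClosure L) (AlgHom.id L (AlgebraicClosure L)) hm₁ a
    have h2 : (fL.map (algebraMap L (AlgebraicClosure L))).roots =
        a ::ₘ (f₁.map (algebraMap L (AlgebraicClosure L))).roots := by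
      rw [hf₁, Polynomial.map_mul, roots_mul, Polynomial.map_sub, map_X, map_C, roots_X_sub_C,
        Multiset.singleton_add]
      rw [← Polynomial.map_mul, ← hf₁]
      exact (hmL.map _).ne_zero
    have h3 : fL.map (algebraMap L (AlgebraicClosure L)) =
        f.map (algebraMap K (AlgebraicClosure L)) := by
      rw [hfL, Polynomial.map_map, ← IsScalarTower.algebraMap_eq]
    rw [h3, ← hR] at h2
    have h4 : (f₁.map (algebraMap L (AlgebraicClosure L))).roots = R.erase a := by
      rw [h2, Multiset.erase_cons_head]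
    rw [← h1, h4, Finset.prod]
    have h5 : S.val = R.erase a := by
      rw [hS, Finset.erase_val, Multiset.toFinset_val, Multiset.dedup_eq_self.2 hnd]
    rw [h5]
    rfl
  set G : AlgebraicClosure L := ∏ e ∈ S, γ e with hG
  have hG0 : G ≠ 0 := by
    rw [hG, Finset.prod_ne_zero_iff]
    intro e he h0
    obtain ⟨he1, he2⟩ := (hmemS e).1 he
    have h1 := hγ2 e he1
    rw [h0, zero_pow (by norm_num)] at h1
    rcases mul_eq_zero.1 h1.symm with h2 | h2
    · obtain ⟨θ, hθ, rfl⟩ := root_lift (IsAlgClosed.lift (R := K) (S := AlgebraicClosure K)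
        (M := AlgebraicClosure L) : AlgebraicClosure K →ₐ[K] AlgebraicClosure L) D.mon he1
      rw [aeval_algHom_apply, map_eq_zero] at h2
      exact D.neh θ hθ h2
    · exact he2 (sub_eq_zero.1 h2).symm
  obtain ⟨z, hz⟩ := norm_sq A D.mon D.sep D.fixX D.fixY D.eqn D.neY D.sq D.act
  have hN := Pool.Agent.N615.JB.nrm K (AlgebraicClosure L) f h D.mon (IsAlgClosed.splits _)
  rw [hz, ← hR, hRS] at hN
  have hG2 : G ^ 2 = (∏ e ∈ S, aeval e h) * aeval a f₁ := by
    rw [hG, ← Finset.prod_pow, hf₁p, ← Finset.prod_mul_distrib]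
    refine Finset.prod_congr rfl fun e he => ?_
    exact hγ2 e ((hmemS e).1 he).1
  set ζ := algebraMap K (AlgebraicClosure L) z with hζ
  have hσa : ∀ σ : AlgebraicClosure L ≃ₐ[L] AlgebraicClosure L, σ a = a := fun σ => σ.commutes x
  have hσG : ∀ σ : AlgebraicClosure L ≃ₐ[L] AlgebraicClosure L, σ G = G := by
    intro σ
    rw [hG, map_prod]
    refine Finset.prod_equiv σ.toEquiv (fun e => ?_) (fun e he => hγ σ e ((hmemS e).1 he).1)
    change e ∈ S ↔ σ e ∈ S
    rw [hmemS, hmemS]
    have h1 : aeval (σ e) f = σ (aeval e f) :=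
      aeval_algHom_apply ((σ : AlgebraicClosure L →ₐ[L] AlgebraicClosure L).restrictScalars K) e f
    rw [h1]
    have h2 : σ e ≠ a ↔ e ≠ a := by
      rw [not_iff_not]
      constructor
      · intro h3
        exact σ.injective (h3.trans (hσa σ).symm)
      · rintro rfl
        exact hσa σ
    rw [h2]
    exact and_congr_left fun _ => (_root_.map_eq_zero σ).symm
  let γ' : AlgebraicClosure L → AlgebraicClosure L := fun e =>
    if e = a then ζ * aeval a f₁ / G else γ e
  obtain ⟨s, hs⟩ := desc (L := L)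
    (q := h.map (algebraMap K L) * ((-1) ^ (2 * g) * (f₁ - (Polynomial.X - C x))))
    hmL hsL (γ := γ') (fun σ e he => by
      rw [hfL, aev_L] at he
      change σ (if e = a then ζ * aeval a f₁ / G else γ e) =
        if σ e = a then ζ * aeval a f₁ / G else γ (σ e)
      by_cases h1 : e = a
      · rw [if_pos h1, if_pos (by rw [h1, hσa]), map_div₀, map_mul, hσG]
        have e1 : σ ζ = ζ := by
          rw [hζ, IsScalarTower.algebraMap_apply K L (AlgebraicClosure L)]
          exact σ.commutes _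
        have e2 : σ (aeval a f₁) = aeval a f₁ := by
          rw [ha, aeval_algebraMap_apply]
          exact σ.commutes _
        rw [e1, e2]
      · rw [if_neg h1, if_neg, hγ σ e he]
        intro h2
        exact h1 (σ.injective (h2.trans (hσa σ).symm))) (fun e he => by
      rw [hfL, aev_L] at he
      change _ = (if e = a then ζ * aeval a f₁ / G else γ e) ^ 2
      rw [map_mul, aev_L, map_mul, map_pow, map_neg, map_one, Even.neg_one_pow ⟨g, by ring⟩, one_mul,
        map_sub, map_sub, aeval_X, aeval_C]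
      change aeval e h * (aeval e f₁ - (e - a)) = _
      by_cases h1 : e = a
      · rw [if_pos h1, h1, sub_self, sub_zero, div_pow, eq_div_iff (pow_ne_zero _ hG0), hG2, mul_pow]
        have h2 : ζ ^ 2 = aeval a h * ∏ e ∈ S, aeval e h := by rw [← hN, hζ, map_pow]
        rw [h2]
        ring
      · rw [if_neg h1, hf₁e e he h1, hγ2 e he]
        ring)
  have hdv : (Polynomial.X - C x).natDegree < f₁.natDegree := by
    rw [natDegree_X_sub_C, hd₁]
    omega
  have hmu : (f₁ - (Polynomial.X - C x)).Monic := by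
    refine hm₁.sub_of_left ?_
    rw [degree_X_sub_C, degree_eq_natDegree hm₁.ne_zero, hd₁]
    exact_mod_cast (by omega : 1 < 2 * g)
  have hdu : (f₁ - (Polynomial.X - C x)).natDegree = 2 * g := by
    rw [natDegree_sub_eq_left_of_natDegree_lt hdv, hd₁]
  refine ⟨[(f₁ - (Polynomial.X - C x), Polynomial.X - C x)], s, fun p hp => ?_, ?_⟩
  · rw [List.mem_singleton] at hp
    subst hp
    refine ⟨hmu, ?_, ⟨-(Polynomial.X - C x), ?_⟩⟩
    · rw [← hfL, isCoprime_comm]
      have hcop1 : IsCoprime (Polynomial.X - C x) f₁ := by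
        refine ((irreducible_X_sub_C x).coprime_iff_not_dvd).2 fun hd => ?_
        rw [dvd_iff_isRoot, IsRoot.def] at hd
        apply hf₁a
        rw [ha, aeval_algebraMap_apply, coe_aeval_eq_eval, hd, map_zero]
      rw [hf₁]
      refine IsCoprime.mul_left ?_ ?_
      · have := hcop1.add_mul_left_right (-1)
        rwa [mul_neg_one, ← sub_eq_add_neg] at this
      · have h1 := (hcop1.symm.neg_right).add_mul_left_right 1
        have e1 : -(Polynomial.X - C x) + f₁ * 1 = f₁ - (Polynomial.X - C x) := by ring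
        rwa [e1] at h1
    · change (Polynomial.X - C x) ^ 2 - fL = _
      rw [hf₁]
      ring
  · rw [List.map_singleton, List.prod_singleton]
    change fL ∣ h.map (algebraMap K L) *
      ((-1) ^ (f₁ - (Polynomial.X - C x)).natDegree * (f₁ - (Polynomial.X - C x))) - s ^ 2
    rw [hdu]
    exact hs

/-- **The local condition.** -/
theorem Dat.loc (D : Dat A f h X Y W g) (hg : 1 ≤ g) (hgeo : GeoPlc A pl) : LocF L f h := by
  by_cases hX : X ∈ pl.W
  · obtain ⟨x, y, γ, h1, h2, h3⟩ := D.affine hgeo hX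
    by_cases hy : y = 0
    · rw [hy, zero_pow (by norm_num)] at h1
      exact D.branch hg h1.symm h2 h3
    · exact D.gen h1 hy h2 h3
  · exact D.pole hgeo hX

end loc

end Pool.Agent.Helper82.SY
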