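import Pool.Agent.Helper82.SY.Kum
import Pool.Graph.R_seed8.TH954.SFinV
import Pool.Graph.R_pool_sql_team_seeded_63374d34.N874.JM.Stm

/-!
# Project SY (helper82): the local condition at a place which gives the section
-/

set_option autoImplicit false
set_option linter.all false

open Polynomial
open scoped Classical

namespace Pool.Agent.Helper82.SY

open Pool.Agent.TH954 (SAct Plc GeoPlc Compat exists_compat)
open Pool.Agent.TH954.Plc
open Pool.Agent.N874.JM (LocF)

section poly

/-- a separable polynomial divides a polynomial with the same zeros -/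
theorem dvd_of_zeros {L Λ : Type} [Field L] [Field Λ] [IsAlgClosed Λ] [Algebra L Λ] {f p : L[X]}
    (hm : f.Monic) (hs : f.Separable) (h : ∀ e : Λ, aeval e f = 0 → aeval e p = 0) : f ∣ p := by
  by_cases hp : p = 0
  · rw [hp]; exact dvd_zero f
  have hsp : (f.map (algebraMap L Λ)).Splits := IsAlgClosed.splits _
  have hnd : (f.map (algebraMap L Λ)).roots.Nodup := nodup_roots (hs.map)
  have hp' : p.map (algebraMap L Λ) ≠ 0 := (Polynomial.map_ne_zero_iff
    (algebraMap L Λ).injective).2 hp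
  rw [← Polynomial.map_dvd_map' (algebraMap L Λ), hsp.eq_prod_roots_of_monic (hm.map _),
    Multiset.prod_X_sub_C_dvd_iff_le_roots hp', Multiset.le_iff_subset hnd]
  intro e he
  rw [mem_roots (hm.map _).ne_zero, IsRoot.def, eval_map_algebraMap] at he
  rw [mem_roots hp', IsRoot.def, eval_map_algebraMap]
  exact h e he

variable {K Kb N : Type} [Field K] [Field Kb] [IsAlgClosed Kb] [Algebra K Kb] [Field N] [Algebra K N]

/-- the product over the roots -/
theorem prod_rts (φ : Kb →ₐ[K] N) {f : K[X]} (hm : f.Monic) (X : N) :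
    ((f.map (algebraMap K Kb)).roots.map fun θ => X - φ θ).prod = aeval X f := by
  have hsp : (f.map (algebraMap K Kb)).Splits := IsAlgClosed.splits _
  have h1 : f.map (algebraMap K N) = (f.map (algebraMap K Kb)).map (φ : Kb →+* N) := by
    rw [Polynomial.map_map]
    congr 1
    exact φ.comp_algebraMap.symm
  rw [← eval_map_algebraMap, h1]
  conv_rhs => rw [hsp.eq_prod_roots_of_monic (hm.map _)]
  rw [Polynomial.map_multiset_prod, eval_multiset_prod, Multiset.map_map, Multiset.map_map]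
  congr 1
  refine Multiset.map_congr rfl fun r _ => ?_
  simp only [Function.comp_apply, Polynomial.map_sub, map_X, map_C, eval_sub, eval_X, eval_C]
  rfl

/-- the roots in an extension come from the algebraic closure -/
theorem root_lift (φ : Kb →ₐ[K] N) {f : K[X]} (hm : f.Monic) {e : N} (he : aeval e f = 0) :
    ∃ θ : Kb, aeval θ f = 0 ∧ φ θ = e := by
  rw [← prod_rts φ hm e, Multiset.prod_eq_zero_iff, Multiset.mem_map] at he
  obtain ⟨θ, hθ, h⟩ := he
  rw [mem_roots (hm.map _).ne_zero, IsRoot.def, eval_map_algebraMap] at hθ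
  exact ⟨θ, hθ, (sub_eq_zero.1 h).symm⟩

end poly

section loc

variable {K M : Type} [Field K] [CharZero K] [Field M] [Algebra K M] (A : SAct K M)
variable {L : Type} [Field L] [CharZero L] [Algebra K L] {pl : Plc K M (AlgebraicClosure L)}

/-- the values of an equivariant family -/
theorem exists_gamma (hgeo : GeoPlc A pl) {f : K[X]} (hm : f.Monic) {Z : AlgebraicClosure K → M}
    (hZ : ∀ (τ : AlgebraicClosure K ≃ₐ[K] AlgebraicClosure K) (θ : AlgebraicClosure K),
      aeval θ f = 0 → A.s τ (Z θ) = Z (τ θ))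
    (hmem : ∀ θ : AlgebraicClosure K, aeval θ f = 0 → Z θ ∈ pl.W) :
    ∃ γ : AlgebraicClosure L → AlgebraicClosure L,
      (∀ θ : AlgebraicClosure K, aeval θ f = 0 → pl.val (Z θ) (γ (pl.iot A.j θ))) ∧
      ∀ (σ : AlgebraicClosure L ≃ₐ[L] AlgebraicClosure L) (e : AlgebraicClosure L),
        aeval e f = 0 → σ (γ e) = γ (σ e) := by
  have hex : ∀ e : AlgebraicClosure L, aeval e f = 0 → ∃ c : AlgebraicClosure L,
      ∀ θ : AlgebraicClosure K, pl.iot A.j θ = e → pl.val (Z θ) c := by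
    intro e he
    obtain ⟨θ, hθ, h1⟩ := root_lift (pl.iot A.j) hm he
    obtain ⟨c, hc⟩ := val_of_mem (hmem θ hθ)
    refine ⟨c, fun θ' h' => ?_⟩
    have : θ' = θ := (pl.iot A.j).injective (h'.trans h1.symm)
    rw [this]
    exact hc
  choose! γ hγ using hex
  have hr : ∀ θ : AlgebraicClosure K, aeval θ f = 0 → aeval (pl.iot A.j θ) f = 0 := by
    intro θ hθ
    rw [aeval_algHom_apply, hθ, map_zero]
  refine ⟨γ, fun θ hθ => hγ _ (hr θ hθ) θ rfl, fun σ e he => ?_⟩
  obtain ⟨θ, hθ, rfl⟩ := root_lift (pl.iot A.j) hm he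
  obtain ⟨τ, hτ⟩ := exists_compat (pl.iot A.j) σ
  have h1 := hγ _ he θ rfl
  obtain ⟨h2, h3⟩ := hgeo σ τ hτ ⟨Z θ, h1.mem⟩
  have hτθ : aeval (τ θ) f = 0 := by
    have h1 := aeval_algHom_apply (τ : AlgebraicClosure K →ₐ[K] AlgebraicClosure K) θ f
    rw [hθ, map_zero] at h1
    exact h1
  have h4 : pl.val (A.s τ (Z θ)) (σ (γ (pl.iot A.j θ))) := by
    refine ⟨h2, ?_⟩
    rw [h3]
    congr 1
    obtain ⟨_, h5⟩ := h1
    exact h5
  rw [hZ τ θ hθ] at h4
  have h5 := hγ _ (hr _ hτθ) (τ θ) rfl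
  rw [hτ θ] at h5
  exact h4.unique h5

/-- the values of fixed elements -/
theorem val_fixed (hgeo : GeoPlc A pl) {X : M} (hX : ∀ τ, A.s τ X = X) (hmem : X ∈ pl.W) :
    ∃ x : L, pl.val X (algebraMap L (AlgebraicClosure L) x) := by
  obtain ⟨c, hc⟩ := val_of_mem hmem
  have h1 : ∀ σ : AlgebraicClosure L ≃ₐ[L] AlgebraicClosure L, σ c = c := by
    intro σ
    obtain ⟨τ, hτ⟩ := exists_compat (pl.iot A.j) σ
    obtain ⟨h2, h3⟩ := hgeo σ τ hτ ⟨X, hmem⟩
    have h4 : pl.val (A.s τ X) (σ c) := by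
      refine ⟨h2, ?_⟩
      rw [h3]
      congr 1
      obtain ⟨_, h5⟩ := hc
      exact h5
    rw [hX] at h4
    exact h4.unique hc
  obtain ⟨x, hx⟩ := (InfiniteGalois.mem_range_algebraMap_iff_fixed (k := L)
    (K := AlgebraicClosure L) c).2 h1
  exact ⟨x, by rw [hx]; exact hc⟩

/-- descent of the square root -/
theorem desc {f : L[X]} (hm : f.Monic) (hs : f.Separable) {γ : AlgebraicClosure L → AlgebraicClosure L}
    (hγ : ∀ (σ : AlgebraicClosure L ≃ₐ[L] AlgebraicClosure L) (e : AlgebraicClosure L),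
      aeval e f = 0 → σ (γ e) = γ (σ e)) {q : L[X]}
    (hq : ∀ e : AlgebraicClosure L, aeval e f = 0 → aeval e q = γ e ^ 2) :
    ∃ s : L[X], f ∣ q - s ^ 2 := by
  obtain ⟨s, h1⟩ := Pool.Agent.N615.JB.lag L (AlgebraicClosure L) f hs γ (fun σ e he => hγ σ e he)
  refine ⟨s, dvd_of_zeros (Λ := AlgebraicClosure L) hm hs fun e he => ?_⟩
  rw [map_sub, map_pow, hq e he, h1 e he, sub_self]

end loc

end Pool.Agent.Helper82.SY
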