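import Pool.Agent.Helper82.SX.Gfi

/-!
# Project SY (helper82): polynomials `f` for which no `x - θ` is a square modulo the square of a prime over two
-/

set_option autoImplicit false
set_option linter.all false

open Polynomial NumberField IsDedekindDomain
open scoped Classical

namespace Pool.Agent.Helper82.SY

open Pool.Agent.Helper82.SX (exists_unif)

variable {F : Type} [Field F] [NumberField F]

/-- `x - X` is not congruent to a square modulo `f` and the square of `v`. -/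
def NoSq (v : HeightOneSpectrum (𝓞 F)) (f : (𝓞 F)[X]) : Prop :=
  ∀ (x : 𝓞 F) (s q : (𝓞 F)[X]), C x - X - s ^ 2 - q * f ∉ (v.asIdeal ^ 2).map C

theorem NoSq.congr {v : HeightOneSpectrum (𝓞 F)} {f f' : (𝓞 F)[X]} (h : NoSq v f)
    (hf : f' - f ∈ (v.asIdeal ^ 2).map C) : NoSq v f' := by
  intro x s q hc
  apply h x s q
  have e : C x - X - s ^ 2 - q * f = (C x - X - s ^ 2 - q * f') + q * (f' - f) := by ring
  rw [e]
  exact Ideal.add_mem _ hc (Ideal.mul_mem_left _ _ hf)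

theorem dC_le {R : Type} [CommRing R] (a : R) (p : R[X]) : (C a * p).degree ≤ p.degree := by
  rw [← smul_eq_C_mul]
  exact degree_smul_le a p

section clash

variable {v : HeightOneSpectrum (𝓞 F)}

theorem red_iff {p : (𝓞 F)[X]} : p ∈ (v.asIdeal).map C ↔ p.map (Ideal.Quotient.mk v.asIdeal) = 0 := by
  rw [Ideal.mem_map_C_iff]
  constructor
  · intro h
    ext i
    rw [coeff_map, coeff_zero, Ideal.Quotient.eq_zero_iff_mem]
    exact h i
  · intro h i
    rw [← Ideal.Quotient.eq_zero_iff_mem, ← coeff_map, h, coeff_zero]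

theorem mul_I2 {p q : (𝓞 F)[X]} (hp : p ∈ (v.asIdeal).map C) (hq : q ∈ (v.asIdeal).map C) :
    p * q ∈ (v.asIdeal ^ 2).map C := by
  rw [Ideal.map_pow, pow_two]
  exact Ideal.mul_mem_mul hp hq

theorem I2_le : (v.asIdeal ^ 2).map C ≤ (v.asIdeal).map C :=
  Ideal.map_mono (Ideal.pow_le_self two_ne_zero)

theorem div_pi {π : 𝓞 F} (hπ : π ∈ v.asIdeal) (hπ2 : π ∉ v.asIdeal ^ 2) {p : (𝓞 F)[X]}
    (hp : p ∈ (v.asIdeal).map C) : ∃ ρ : (𝓞 F)[X], p - C π * ρ ∈ (v.asIdeal ^ 2).map C := by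
  have h1 : v.asIdeal ≤ Ideal.span {π} ⊔ v.asIdeal ^ 2 := by
    intro z hz
    have h2 := Ideal.exists_mul_add_mem_pow_succ (P := v.asIdeal) v.ne_bot (i := 1)
      (a := π) (c := z) (by rwa [pow_one]) (by simpa using hπ2) (by rwa [pow_one])
    obtain ⟨d, e, he, h3⟩ := h2
    rw [← h3]
    exact Ideal.add_mem _ (Ideal.mem_sup_left (Ideal.mul_mem_right _ _
      (Ideal.mem_span_singleton_self π))) (Ideal.mem_sup_right he)
  have h2 : p ∈ (Ideal.span {π} ⊔ v.asIdeal ^ 2).map C := Ideal.map_mono h1 hp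
  rw [Ideal.map_sup, Ideal.map_span, Set.image_singleton, Submodule.mem_sup] at h2
  obtain ⟨y, hy, z, hz, h3⟩ := h2
  obtain ⟨ρ, hρ⟩ := Ideal.mem_span_singleton'.1 hy
  refine ⟨ρ, ?_⟩
  rw [← h3, ← hρ]
  have e : ρ * C π + z - C π * ρ = z := by ring
  rw [e]
  exact hz

theorem cancel_pi {π : 𝓞 F} (hπ2 : π ∉ v.asIdeal ^ 2) {p : (𝓞 F)[X]}
    (hp : C π * p ∈ (v.asIdeal ^ 2).map C) : p ∈ (v.asIdeal).map C := by
  rw [Ideal.mem_map_C_iff] at hp ⊢
  intro i
  have h1 := hp i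
  rw [coeff_C_mul, mul_comm] at h1
  haveI := v.isPrime
  exact (Ideal.IsPrime.mul_mem_pow v.asIdeal h1).resolve_right hπ2

/-- a solution of small degree -/
theorem small {f : (𝓞 F)[X]} (hm : f.Monic) (hd : f.natDegree ≠ 0) {x : 𝓞 F} {s q : (𝓞 F)[X]}
    (h : C x - X - s ^ 2 - q * f ∈ (v.asIdeal ^ 2).map C) :
    ∃ s q : (𝓞 F)[X], s.degree < f.degree ∧ C x - X - s ^ 2 - q * f ∈ (v.asIdeal ^ 2).map C := by
  refine ⟨s %ₘ f, q + 2 * (s %ₘ f) * (s /ₘ f) + f * (s /ₘ f) ^ 2, degree_modByMonic_lt _ hm, ?_⟩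
  have e : C x - X - (s %ₘ f) ^ 2 - (q + 2 * (s %ₘ f) * (s /ₘ f) + f * (s /ₘ f) ^ 2) * f =
      C x - X - s ^ 2 - q * f := by
    conv_rhs => rw [← modByMonic_add_div s f]
    ring
  rw [e]
  exact h

/-- **Two solutions.** -/
theorem clash {g : ℕ} (hg : 1 ≤ g) (h2 : (2 : 𝓞 F) ∈ v.asIdeal) {f₀ : (𝓞 F)[X]} (hm : f₀.Monic)
    (hd : f₀.natDegree = 2 * g + 1)
    (hirr : Irreducible (f₀.map (Ideal.Quotient.mk v.asIdeal)))
    {π : 𝓞 F} (hπ : π ∈ v.asIdeal) (hπ2 : π ∉ v.asIdeal ^ 2) {a b a' b' x x' : 𝓞 F}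
    {s q s' q' : (𝓞 F)[X]} (hs : s.degree < f₀.degree) (hs' : s'.degree < f₀.degree)
    (h : C x - X - s ^ 2 - q * (f₀ + C π * (C b * X + C a)) ∈ (v.asIdeal ^ 2).map C)
    (h' : C x' - X - s' ^ 2 - q' * (f₀ + C π * (C b' * X + C a')) ∈ (v.asIdeal ^ 2).map C)
    (hx : x - x' ∈ v.asIdeal) : a - a' ∈ v.asIdeal ∧ b - b' ∈ v.asIdeal := by
  haveI : v.asIdeal.IsMaximal := v.isMaximal
  letI : Field (𝓞 F ⧸ v.asIdeal) := Ideal.Quotient.field v.asIdeal
  set φ := Ideal.Quotient.mk v.asIdeal with hφ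
  have hφ2 : (2 : 𝓞 F ⧸ v.asIdeal) = 0 := by
    have h4 : φ (2 : 𝓞 F) = 0 := Ideal.Quotient.eq_zero_iff_mem.2 h2
    rwa [map_ofNat] at h4
  have hφ2' : (2 : (𝓞 F ⧸ v.asIdeal)[X]) = 0 := by
    rw [← map_ofNat (C : (𝓞 F ⧸ v.asIdeal) →+* (𝓞 F ⧸ v.asIdeal)[X]) 2, hφ2, C_0]
  have hφπ : φ π = 0 := Ideal.Quotient.eq_zero_iff_mem.2 hπ
  have hfm : (f₀.map φ).Monic := hm.map φ
  have hfd : (f₀.map φ).natDegree = 2 * g + 1 := by rw [hm.natDegree_map, hd]
  have hfdeg : (f₀.map φ).degree = f₀.degree := hm.degree_map φ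
  have h1 := red_iff.1 (I2_le h)
  have h1' := red_iff.1 (I2_le h')
  simp only [Polynomial.map_sub, Polynomial.map_mul, Polynomial.map_add, Polynomial.map_pow, map_C,
    map_X] at h1 h1'
  change C (φ x) - X - (s.map φ) ^ 2 - q.map φ * (f₀.map φ + C (φ π) * (C (φ b) * X + C (φ a))) = 0
    at h1
  change C (φ x') - X - (s'.map φ) ^ 2 -
    q'.map φ * (f₀.map φ + C (φ π) * (C (φ b') * X + C (φ a'))) = 0 at h1'
  rw [hφπ, C_0, zero_mul, add_zero] at h1 h1'
  have hxx : φ x = φ x' := Ideal.Quotient.eq.2 hx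
  -- the roots agree modulo `v`
  have hss : s.map φ = s'.map φ := by
    have h3 : f₀.map φ ∣ (s.map φ - s'.map φ) ^ 2 := by
      refine ⟨q'.map φ - q.map φ, ?_⟩
      rw [hxx] at h1
      linear_combination (-1 : (𝓞 F ⧸ v.asIdeal)[X]) * h1 + h1' -
        (s.map φ * s'.map φ - s'.map φ ^ 2) * hφ2'
    have h4 := hirr.prime.dvd_of_dvd_pow h3
    have h5 : (s.map φ - s'.map φ).degree < (f₀.map φ).degree := by
      rw [hfdeg]
      refine lt_of_le_of_lt (degree_sub_le _ _) (max_lt ?_ ?_)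
      · exact lt_of_le_of_lt (degree_map_le) hs
      · exact lt_of_le_of_lt (degree_map_le) hs'
    exact sub_eq_zero.1 (eq_zero_of_dvd_of_degree_lt h4 h5)
  have hs1 : s - s' ∈ (v.asIdeal).map C := by
    rw [red_iff, Polynomial.map_sub, hss, sub_self]
  have h2C : (2 : (𝓞 F)[X]) ∈ (v.asIdeal).map C := by
    rw [← map_ofNat (C : 𝓞 F →+* (𝓞 F)[X]) 2]
    exact Ideal.mem_map_of_mem _ h2
  have hs2 : s ^ 2 - s' ^ 2 ∈ (v.asIdeal ^ 2).map C := by
    have e : s ^ 2 - s' ^ 2 = (s - s') * (s - s') + (2 * s') * (s - s') := by ring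
    rw [e]
    exact Ideal.add_mem _ (mul_I2 hs1 hs1) (mul_I2 (Ideal.mul_mem_right _ _ h2C) hs1)
  set d : (𝓞 F)[X] := C (b - b') * X + C (a - a') with hddef
  have h3 : C (x - x') - (q - q') * (f₀ + C π * (C b * X + C a)) - q' * (C π * d) ∈
      (v.asIdeal ^ 2).map C := by
    have e : C (x - x') - (q - q') * (f₀ + C π * (C b * X + C a)) - q' * (C π * d) =
        (C x - X - s ^ 2 - q * (f₀ + C π * (C b * X + C a))) -
        (C x' - X - s' ^ 2 - q' * (f₀ + C π * (C b' * X + C a'))) + (s ^ 2 - s' ^ 2) := by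
      rw [hddef, C_sub, C_sub, C_sub]
      ring
    rw [e]
    exact Ideal.add_mem _ (Ideal.sub_mem _ h h') hs2
  have hqq : q.map φ = q'.map φ := by
    have h4 := red_iff.1 (I2_le h3)
    simp only [Polynomial.map_sub, Polynomial.map_mul, Polynomial.map_add, map_C, map_X] at h4
    change C (φ (x - x')) - (q.map φ - q'.map φ) *
      (f₀.map φ + C (φ π) * (C (φ b) * X + C (φ a))) - q'.map φ * (C (φ π) * d.map φ) = 0 at h4
    rw [hφπ, map_sub, hxx, sub_self, C_0, zero_mul, add_zero, zero_mul, mul_zero, zero_sub, sub_zero,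
      neg_eq_zero] at h4
    exact sub_eq_zero.1 ((mul_eq_zero.1 h4).resolve_right hfm.ne_zero)
  have hq1 : q - q' ∈ (v.asIdeal).map C := by
    rw [red_iff, Polynomial.map_sub, hqq, sub_self]
  obtain ⟨ρ, hρ⟩ := div_pi hπ hπ2 hq1
  obtain ⟨δ, hδ⟩ := div_pi hπ hπ2 (Ideal.mem_map_of_mem (C : 𝓞 F →+* (𝓞 F)[X]) hx)
  have h5 : C π * (δ - ρ * (f₀ + C π * (C b * X + C a)) - q' * d) ∈ (v.asIdeal ^ 2).map C := by
    have e : C π * (δ - ρ * (f₀ + C π * (C b * X + C a)) - q' * d) =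
        (C (x - x') - (q - q') * (f₀ + C π * (C b * X + C a)) - q' * (C π * d)) -
        (C (x - x') - C π * δ) + (q - q' - C π * ρ) * (f₀ + C π * (C b * X + C a)) := by ring
    rw [e]
    exact Ideal.add_mem _ (Ideal.sub_mem _ h3 hδ) (Ideal.mul_mem_right _ _ hρ)
  have h6 := red_iff.1 (cancel_pi hπ2 h5)
  simp only [Polynomial.map_sub, Polynomial.map_mul, Polynomial.map_add, map_C, map_X] at h6
  change δ.map φ - ρ.map φ * (f₀.map φ + C (φ π) * (C (φ b) * X + C (φ a))) -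
    q'.map φ * d.map φ = 0 at h6
  rw [hφπ, C_0, zero_mul, add_zero] at h6
  -- `δ` is constant modulo `v`
  obtain ⟨δ₀, hδ₀⟩ : ∃ δ₀ : 𝓞 F ⧸ v.asIdeal, δ.map φ = C δ₀ := by
    refine ⟨(δ.map φ).coeff 0, ?_⟩
    ext i
    rcases Nat.eq_zero_or_pos i with rfl | hi
    · rw [coeff_C_zero]
    · rw [coeff_C, if_neg hi.ne', coeff_map, Ideal.Quotient.eq_zero_iff_mem]
      have h7 := (Ideal.mem_map_C_iff.1 hδ) i
      rw [coeff_sub, coeff_C, if_neg hi.ne', zero_sub, coeff_C_mul, neg_mem_iff, mul_comm] at h7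
      haveI := v.isPrime
      exact (Ideal.IsPrime.mul_mem_pow v.asIdeal h7).resolve_right hπ2
  rw [hδ₀] at h6
  -- the derivative
  have h7 := congrArg derivative h1'
  rw [derivative_sub, derivative_sub, derivative_sub, derivative_C, derivative_X, derivative_pow,
    derivative_mul, derivative_zero, Nat.cast_ofNat, hφ2, C_0, zero_mul, zero_mul] at h7
  have h8 : f₀.map φ ∣ d.map φ + C δ₀ * derivative (f₀.map φ) := by
    refine ⟨-(d.map φ * derivative (q'.map φ)) + ρ.map φ * derivative (f₀.map φ), ?_⟩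
    linear_combination (-(d.map φ)) * h7 + derivative (f₀.map φ) * h6
  have hdd : (d.map φ).degree < 2 := by
    refine lt_of_le_of_lt (degree_map_le) ?_
    rw [hddef]
    refine lt_of_le_of_lt (degree_linear_le) ?_
    exact_mod_cast one_lt_two
  have h9 : d.map φ + C δ₀ * derivative (f₀.map φ) = 0 := by
    refine eq_zero_of_dvd_of_degree_lt h8 ?_
    have hff : (f₀.map φ).degree = ((2 * g + 1 : ℕ) : WithBot ℕ) := by
      rw [degree_eq_natDegree hfm.ne_zero, hfd]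
    refine lt_of_le_of_lt (degree_add_le _ _) (max_lt ?_ ?_)
    · rw [hff]
      refine lt_trans hdd ?_
      exact_mod_cast (by omega : 2 < 2 * g + 1)
    · refine lt_of_le_of_lt (dC_le _ _) ?_
      exact degree_derivative_lt hfm.ne_zero
  have h10 := congrArg (fun p => p.coeff (2 * g)) h9
  change (d.map φ + C δ₀ * derivative (f₀.map φ)).coeff (2 * g) = (0 : (𝓞 F ⧸ v.asIdeal)[X]).coeff (2 * g) at h10
  rw [coeff_add, coeff_C_mul, coeff_derivative, coeff_zero,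
    coeff_eq_zero_of_degree_lt (lt_of_lt_of_le hdd (by exact_mod_cast (by omega : 2 ≤ 2 * g))),
    zero_add] at h10
  have h11 : (f₀.map φ).coeff (2 * g + 1) = 1 := by
    rw [← hfd]
    exact hfm.coeff_natDegree
  rw [h11, one_mul, Nat.cast_mul, Nat.cast_ofNat, hφ2, zero_mul, zero_add, mul_one] at h10
  rw [h10, C_0, zero_mul, add_zero] at h9
  have h12 : ∀ i, (d.map φ).coeff i = 0 := fun i => by rw [h9, coeff_zero]
  constructor
  · have h13 := h12 0
    rw [coeff_map, hddef] at h13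
    simp only [coeff_add, coeff_C_mul, coeff_X_zero, mul_zero, coeff_C_zero, zero_add] at h13
    exact Ideal.Quotient.eq_zero_iff_mem.1 h13
  · have h13 := h12 1
    rw [coeff_map, hddef] at h13
    simp only [coeff_add, coeff_C_mul, coeff_X_one, mul_one, coeff_C_succ, add_zero] at h13
    exact Ideal.Quotient.eq_zero_iff_mem.1 h13

end clash

/-- **Existence.** -/
theorem exists_nosq {g : ℕ} (hg : 1 ≤ g) {v : HeightOneSpectrum (𝓞 F)}
    (h2 : (2 : 𝓞 F) ∈ v.asIdeal) {f₀ : (𝓞 F)[X]} (hm : f₀.Monic) (hd : f₀.natDegree = 2 * g + 1)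
    (hirr : Irreducible (f₀.map (Ideal.Quotient.mk v.asIdeal))) :
    ∃ c₀ c₁ : 𝓞 F, c₀ ∈ v.asIdeal ∧ c₁ ∈ v.asIdeal ∧ NoSq v (f₀ + (C c₁ * X + C c₀)) := by
  haveI : v.asIdeal.IsMaximal := v.isMaximal
  haveI : Finite (𝓞 F ⧸ v.asIdeal) := v.asIdeal.finiteQuotientOfFreeOfNeBot v.ne_bot
  letI : Field (𝓞 F ⧸ v.asIdeal) := Ideal.Quotient.field v.asIdeal
  obtain ⟨π, hπ, hπ2⟩ := exists_unif v
  by_contra hcon
  push Not at hcon
  have hex : ∀ a b : 𝓞 F, ∃ (x : 𝓞 F) (s q : (𝓞 F)[X]), s.degree < f₀.degree ∧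
      C x - X - s ^ 2 - q * (f₀ + C π * (C b * X + C a)) ∈ (v.asIdeal ^ 2).map C := by
    intro a b
    have h1 := hcon (π * a) (π * b) (Ideal.mul_mem_right _ _ hπ) (Ideal.mul_mem_right _ _ hπ)
    have e : f₀ + (C (π * b) * X + C (π * a)) = f₀ + C π * (C b * X + C a) := by
      rw [C_mul, C_mul]
      ring
    rw [e] at h1
    unfold NoSq at h1
    push Not at h1
    obtain ⟨x, s, q, h3⟩ := h1
    have hlt : (C π * (C b * X + C a)).degree < f₀.degree := by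
      refine lt_of_le_of_lt (dC_le _ _) (lt_of_le_of_lt degree_linear_le ?_)
      rw [degree_eq_natDegree hm.ne_zero, hd]
      exact_mod_cast (by omega : 1 < 2 * g + 1)
    have hm' : (f₀ + C π * (C b * X + C a)).Monic := hm.add_of_left hlt
    have hd' : (f₀ + C π * (C b * X + C a)).degree = f₀.degree := degree_add_eq_left_of_degree_lt hlt
    obtain ⟨s', q', h4, h5⟩ := small hm' (by
      rw [natDegree_eq_of_degree_eq hd', hd]
      omega) h3
    exact ⟨x, s', q', by rwa [hd'] at h4, h5⟩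
  choose x s q hs h using hex
  set φ := Ideal.Quotient.mk v.asIdeal with hφ
  let Φ : (𝓞 F ⧸ v.asIdeal) × (𝓞 F ⧸ v.asIdeal) → (𝓞 F ⧸ v.asIdeal) := fun p =>
    φ (x (Quotient.out p.1) (Quotient.out p.2))
  have hcard : Nat.card (𝓞 F ⧸ v.asIdeal) <
      Nat.card ((𝓞 F ⧸ v.asIdeal) × (𝓞 F ⧸ v.asIdeal)) := by
    rw [Nat.card_prod]
    have h3 : 1 < Nat.card (𝓞 F ⧸ v.asIdeal) := Finite.one_lt_card
    nlinarith
  haveI : Fintype (𝓞 F ⧸ v.asIdeal) := Fintype.ofFinite _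
  rw [Nat.card_eq_fintype_card, Nat.card_eq_fintype_card] at hcard
  obtain ⟨p, p', hne, he⟩ := Fintype.exists_ne_map_eq_of_card_lt Φ hcard
  apply hne
  have h3 := clash hg h2 hm hd hirr hπ hπ2 (hs _ _) (hs _ _) (h (Quotient.out p.1) (Quotient.out p.2))
    (h (Quotient.out p'.1) (Quotient.out p'.2)) (Ideal.Quotient.eq.1 he)
  have hout : ∀ z : 𝓞 F ⧸ v.asIdeal, φ (Quotient.out z) = z := fun z => Quotient.out_eq z
  have h4 := Ideal.Quotient.eq.2 h3.1
  have h5 := Ideal.Quotient.eq.2 h3.2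
  rw [← hφ, hout, hout] at h4 h5
  exact Prod.ext h4 h5

end Pool.Agent.Helper82.SY
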