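import Pool.Agent.Helper82.SY.Abs
import Pool.Agent.Helper82.SY.Fin
import Pool.Agent.Helper82.SY.Nsq
import Pool.Agent.Helper82.SX.Fin

/-!
# Project SY (helper82): sections over a number field, the places over two
-/

set_option autoImplicit false
set_option linter.all false

open Polynomial IsDedekindDomain NumberField WithZero
open scoped Classical

namespace Pool.Agent.Helper82.SY

open Pool.Agent.TH954
open Pool.Agent.TH954.Plc
open Pool.Agent.Helper82.PT
open Pool.Agent.Helper82.PT.Rn
open Pool.Agent.Helper82.NG (exists_emb)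
open Pool.Agent.Helper82.SX (im val_im den pow_le_iff' geo_of)
open Pool.Agent.W620.SC (unramified)
open Pool.Agent.N783.PF (fF rd)
open Pool.Agent.N874.TF (fM)
open Pool.Agent.N874.QM (SelM)

section near

variable {K M : Type} [Field K] [CharZero K] [Field M] [Algebra K M] (A : SAct K M)
variable {L : Type} [Field L] [CharZero L] [Algebra K L] {pl : Plc K M (AlgebraicClosure L)}

/-- The value of `x` and the square roots of `x - θ`. -/
theorem near (hgeo : GeoPlc A pl) {f : K[X]} (hm : f.Monic) (hs : f.Separable) {X : M}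
    (hX : ∀ τ, A.s τ X = X) {W : AlgebraicClosure K → M}
    (hsq : ∀ θ : AlgebraicClosure K, aeval θ f = 0 → W θ ^ 2 = X - A.j θ)
    (hact : ∀ (τ : AlgebraicClosure K ≃ₐ[K] AlgebraicClosure K) (θ : AlgebraicClosure K),
      aeval θ f = 0 → A.s τ (W θ) = W (τ θ)) (hXW : X ∈ pl.W) :
    ∃ (x : L) (s : L[X]), pl.val X (algebraMap L (AlgebraicClosure L) x) ∧
      f.map (algebraMap K L) ∣ C x - Polynomial.X - s ^ 2 := by
  obtain ⟨x, hx⟩ := val_fixed A hgeo hX hXW
  have hv2 : ∀ θ : AlgebraicClosure K, aeval θ f = 0 → pl.val (W θ ^ 2)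
      (algebraMap L (AlgebraicClosure L) x - pl.iot A.j θ) := by
    intro θ hθ
    rw [hsq θ hθ]
    exact hx.sub (val_j A.j θ)
  obtain ⟨γ, hγ1, hγ2⟩ := exists_gamma A hgeo hm (Z := W) hact
    (fun θ hθ => mem_of_pow_mem (n := 2) (by norm_num) (hv2 θ hθ).mem)
  obtain ⟨s, hs'⟩ := desc (L := L) (f := f.map (algebraMap K L)) (q := C x - Polynomial.X)
    (hm.map _) hs.map (γ := γ) (fun σ e he => hγ2 σ e (by rwa [aev_L] at he)) (fun e he => by
      rw [aev_L] at he
      obtain ⟨θ, hθ, rfl⟩ := root_lift (pl.iot A.j) hm he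
      rw [map_sub, aeval_C, aeval_X]
      exact (hv2 θ hθ).unique ((hγ1 θ hθ).pow 2))
  exact ⟨x, s, hx, hs'⟩

end near

section two

variable {F M : Type} [Field F] [NumberField F] [Field M] [NumberField M] [Algebra F M]

/-- **No square roots of integral elements over the completions at two.** -/
theorem no_int [IsGalois F M] {v : HeightOneSpectrum (𝓞 F)} {f : (𝓞 F)[X]} (hm : f.Monic)
    (hirr : Irreducible (rd v.asIdeal f)) (hno : NoSq v f) (σ : M →ₐ[F] v.adicCompletion F)
    {w : HeightOneSpectrum (𝓞 M)} (hw : blw F w = v) {x : w.adicCompletion M}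
    (hx : Valued.v x ≤ 1) {s : (w.adicCompletion M)[X]} (h : f.map (im w) ∣ C x - X - s ^ 2) :
    False := by
  obtain ⟨j, hj⟩ := exists_emb σ hw
  subst hw
  obtain ⟨e, he, hval⟩ := val_im (F := F) w
  haveI : (blw F w).asIdeal.IsMaximal := (blw F w).isMaximal
  have hle : ∀ r : 𝓞 F, Valued.v (im w r) ≤ 1 := by
    intro r
    change Valued.v (algebraMap M (w.adicCompletion M) (algebraMap F M (r : F))) ≤ 1
    rw [hval]
    exact pow_le_one₀ zero_le ((blw F w).valuation_le_one r)
  have hlt : ∀ r : 𝓞 F, Valued.v (im w r) < 1 ↔ r ∈ (blw F w).asIdeal := by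
    intro r
    change Valued.v (algebraMap M (w.adicCompletion M) (algebraMap F M (r : F))) < 1 ↔ _
    rw [hval, pow_lt_one_iff_of_nonneg zero_le he]
    exact HeightOneSpectrum.valuation_lt_one_iff_mem (K := F) (blw F w) r
  refine no_sqrt (ν := (Valued.v : Valuation (w.adicCompletion M) (WithZero (Multiplicative ℤ))))
    (ι := im w) hle (J := (blw F w).asIdeal) (fun z hz => ?_) hlt
    (ε := exp (-((2 * e : ℕ) : ℤ))) (fun z hz => den j hj z hz (2 * e)) (fun r hr => ?_)
    hm hirr (fun x s q => hno x s q) hx h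
  · obtain ⟨r, hr⟩ := den j hj z hz 1
    refine ⟨r, lt_of_le_of_lt hr ?_⟩
    rw [← exp_zero, exp_lt_exp]
    norm_num
  · have h5 : (blw F w).valuation F ((r : 𝓞 F) : F) ≤ exp (-(2 : ℤ)) := by
      rw [← pow_le_iff' he, ← hval]
      refine hr.trans (le_of_eq ?_)
      rw [← exp_nsmul]
      congr 1
      push_cast
      simp
      ring
    have h6 : (blw F w).valuation F (algebraMap (𝓞 F) F r) ≤ exp (-(2 : ℤ)) := h5
    rw [HeightOneSpectrum.valuation_of_algebraMap] at h6
    exact ((blw F w).intValuation_le_pow_iff_mem _ 2).1 h6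

variable {L N B : Type} [Field L] [Field N] [Field B] [Algebra M L] [Algebra L N]
  [Algebra M N] [IsScalarTower M L N] [Algebra M B] [IsAlgClosure M B]

/-- **The points at the places over two.** -/
theorem far [Algebra.IsAlgebraic L N] [IsGalois F M] {f : (𝓞 F)[X]} (hm : f.Monic) (hirr : Irreducible (fM M f))
    {w : HeightOneSpectrum (𝓞 M)} (h2 : Irreducible (rd (blw F w).asIdeal f))
    (hno : NoSq (blw F w) f) (σ : M →ₐ[F] (blw F w).adicCompletion F) {x : L}
    (s : GalSection M L N B) {r : B → N}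
    (hr1 : ∀ θ : B, aeval θ (fM M f) = 0 → r θ ^ 2 = algebraMap L N x - s.j θ)
    (hr2 : ∀ (γ : B ≃ₐ[M] B) (θ : B), aeval θ (fM M f) = 0 → s.s γ (r θ) = r (γ θ))
    (q : Plc M N (AlgebraicClosure (w.adicCompletion M))) (hq : s.GivenBy (w.adicCompletion M) q) :
    algebraMap L N x ∉ q.W ∨ ∃ a : w.adicCompletion M,
      q.val (algebraMap L N x) (algebraMap (w.adicCompletion M)
        (AlgebraicClosure (w.adicCompletion M)) a) ∧ 1 < Valued.v a := by
  haveI : CharZero (w.adicCompletion M) :=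
    charZero_of_injective_algebraMap (algebraMap M (w.adicCompletion M)).injective
  by_cases hX : algebraMap L N x ∈ q.W
  swap
  · exact Or.inl hX
  right
  have hmM : (fM M f).Monic := (hm.map _).map _
  have hroot : ∀ θ : AlgebraicClosure M, aeval θ (fM M f) = 0 →
      aeval (eqv M B θ) (fM M f) = 0 := by
    intro θ hθ
    have h4 := aeval_algHom_apply ((eqv M B) : AlgebraicClosure M →ₐ[M] B) θ (fM M f)
    rw [hθ, map_zero] at h4
    exact h4
  obtain ⟨a, t, ha, ht⟩ := near (toSAct s) (geo_of s q hq) hmM hirr.separable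
    (X := algebraMap L N x) (fun τ => (s.s ((eqv M B).autCongr τ)).commutes x)
    (W := fun θ => r (eqv M B θ)) (fun θ hθ => hr1 _ (hroot θ hθ)) (fun τ θ hθ => by
      change s.s ((eqv M B).autCongr τ) (r (eqv M B θ)) = r (eqv M B (τ θ))
      rw [hr2 _ _ (hroot θ hθ)]
      have e2 : ((eqv M B).autCongr τ) (eqv M B θ) = eqv M B (τ θ) := by
        change eqv M B (τ ((eqv M B).symm (eqv M B θ))) = _
        rw [AlgEquiv.symm_apply_apply]
      rw [e2]) hX
  refine ⟨a, ha, ?_⟩
  by_contra hle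
  rw [not_lt] at hle
  refine no_int hm h2 hno σ rfl hle (s := t) ?_
  have e1 : (fM M f).map (algebraMap M (w.adicCompletion M)) = f.map (im w) := by
    unfold im
    rw [← Polynomial.map_map, ← Polynomial.map_map]
  rw [← e1]
  exact ht

end two

section down

/-- The place of `L` given by a place of `N`, with values. -/
theorem place_down' {K L N B : Type} [Field K] [CharZero K] [Field L] [Field N] [Field B]
    [Algebra K L] [Algebra L N] [Algebra K N] [Algebra K B] [IsScalarTower K L N]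
    [IsAlgClosure K B] [Algebra.IsAlgebraic L N] (s : GalSection K L N B) {E : Type} [Field E]
    [CharZero E] [Algebra K E] (p : Plc K N (AlgebraicClosure E)) (hp : s.GivenBy E p) :
    ∃ p₀ : Plc K L E, (∀ z : L, z ∈ p₀.W ↔ algebraMap L N z ∈ p.W) ∧
      ∀ (z : L) (a : E), p₀.val z a ↔ p.val (algebraMap L N z)
        (algebraMap E (AlgebraicClosure E) a) := by
  have hfix : ∀ (z : L) (hz : algebraMap L N z ∈ p.W),
      p.ρ ⟨algebraMap L N z, hz⟩ ∈ (algebraMap E (AlgebraicClosure E)).range := by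
    intro z hz
    have h1 : p.ρ ⟨algebraMap L N z, hz⟩ ∈ Set.range (algebraMap E (AlgebraicClosure E)) := by
      rw [InfiniteGalois.mem_range_algebraMap_iff_fixed]
      intro σ
      obtain ⟨τ, hτ⟩ := exists_compat (p.iot (toSAct s).j) σ
      obtain ⟨h2, h3⟩ := geo_of s p hp σ τ hτ ⟨_, hz⟩
      have h4 : (toSAct s).s τ (algebraMap L N z) = algebraMap L N z :=
        (s.s ((eqv K B).autCongr τ)).commutes z
      rw [← h3]
      congr 1
      exact Subtype.ext h4
    exact h1
  let g : (algebraMap E (AlgebraicClosure E)).range →+* E :=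
    ((RingEquiv.ofLeftInverse
      (Function.leftInverse_invFun (algebraMap E (AlgebraicClosure E)).injective)).symm :
        (algebraMap E (AlgebraicClosure E)).range ≃+* E)
  have hg : ∀ (z : AlgebraicClosure E) (hz : z ∈ (algebraMap E (AlgebraicClosure E)).range),
      algebraMap E (AlgebraicClosure E) (g ⟨z, hz⟩) = z := by
    intro z hz
    have h1 := (RingEquiv.ofLeftInverse
      (Function.leftInverse_invFun (algebraMap E (AlgebraicClosure E)).injective)).apply_symm_apply
        ⟨z, hz⟩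
    exact congrArg Subtype.val h1
  let ι : (p.W.comap (algebraMap L N)) →+* p.W :=
    { toFun := fun z => ⟨algebraMap L N z.1, z.2⟩
      map_one' := Subtype.ext (map_one _)
      map_mul' := fun x y => Subtype.ext (map_mul _ _ _)
      map_zero' := Subtype.ext (map_zero _)
      map_add' := fun x y => Subtype.ext (map_add _ _ _) }
  let r : (p.W.comap (algebraMap L N)) →+* (algebraMap E (AlgebraicClosure E)).range :=
    RingHom.codRestrict (p.ρ.comp ι) _ (fun z => hfix z.1 z.2)
  have hr : ∀ z, algebraMap E (AlgebraicClosure E) (g (r z)) = p.ρ (ι z) :=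
    fun z => hg _ (hfix z.1 z.2)
  refine ⟨⟨p.W.comap (algebraMap L N), g.comp r, ?_, ?_⟩, fun z => Iff.rfl, fun z a => ?_⟩
  · intro x hx
    have h1 : p.ρ (ι x) ≠ 0 := by
      rw [← hr, Ne, map_eq_zero]
      exact hx
    have h2 := p.loc (ι x) h1
    change algebraMap L N (x : L)⁻¹ ∈ p.W
    rw [map_inv₀]
    exact h2
  · intro c
    obtain ⟨h1, h2⟩ := p.comm c
    have h3 : algebraMap K L c ∈ p.W.comap (algebraMap L N) := by
      rw [ValuationSubring.mem_comap, ← IsScalarTower.algebraMap_apply]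
      exact h1
    refine ⟨h3, ?_⟩
    apply (algebraMap E (AlgebraicClosure E)).injective
    change algebraMap E (AlgebraicClosure E) (g (r ⟨_, h3⟩)) = _
    rw [hr, ← IsScalarTower.algebraMap_apply, ← h2]
    congr 1
    exact Subtype.ext (IsScalarTower.algebraMap_apply K L N c).symm
  · constructor
    · rintro ⟨hz, h1⟩
      refine ⟨hz, ?_⟩
      rw [← h1]
      exact (hr ⟨z, hz⟩).symm
    · rintro ⟨hz, h1⟩
      refine ⟨hz, ?_⟩
      apply (algebraMap E (AlgebraicClosure E)).injective
      rw [← h1]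
      exact hr ⟨z, hz⟩

end down

section main

variable {F M : Type} [Field F] [NumberField F] [Field M] [NumberField M] [Algebra F M]

/-- **Sections modulo two and at the places over two.** -/
theorem sec_two [IsGalois F M] {n : ℕ} (hM : Module.finrank F M = 2 ^ n) {f : (𝓞 F)[X]} {g : ℕ}
    (hg : 1 ≤ g) (hm : f.Monic) (hd : f.natDegree = 2 * g + 1)
    (hirr : Irreducible (fF f)) (hsel : SelM M (fM M f))
    (hmo : Pool.Agent.Helper82.TU.MonoF f)
    (h2i : ∀ v : HeightOneSpectrum (𝓞 F), (2 : 𝓞 F) ∈ v.asIdeal → Irreducible (rd v.asIdeal f))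
    (h2r : ∀ v : HeightOneSpectrum (𝓞 F), (2 : 𝓞 F) ∈ v.asIdeal → NoSq v f)
    (h2M : ∀ v : HeightOneSpectrum (𝓞 F), (2 : 𝓞 F) ∈ v.asIdeal →
      Nonempty (M →ₐ[F] v.adicCompletion F))
    {L Ω N B : Type} [Field L] [Field Ω] [Field N]
    [Field B] [Algebra M L] [Algebra L Ω] [Algebra M Ω] [IsScalarTower M L Ω] [Algebra L N]
    [Algebra M N] [IsScalarTower M L N] [Algebra M B] [IsAlgClosure L Ω] [IsAlgClosure M B]
    (U : Set (ValuationSubring L)) (hU : ∀ O ∈ U, ∀ c : M, algebraMap M L c ∈ O)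
    (e : N →ₐ[L] Ω) (he : unramified L Ω U ≤ e.fieldRange) {x y : L}
    (hxy : y ^ 2 = aeval x (fM M f)) (s : GalSection M L N B)
    (hs : ∀ v : HeightOneSpectrum (𝓞 M),
      s.GeometricOver (v.adicCompletion M) (AlgebraicClosure (v.adicCompletion M))) :
    (∃ r : B → N, (∀ θ : B, aeval θ (fM M f) = 0 → r θ ^ 2 = algebraMap L N x - s.j θ) ∧
      ∀ (γ : B ≃ₐ[M] B) (θ : B), aeval θ (fM M f) = 0 → s.s γ (r θ) = r (γ θ)) ∧
    ∀ w : HeightOneSpectrum (𝓞 M), (2 : 𝓞 M) ∈ w.asIdeal →
      (∃ q₀ : Plc M L (w.adicCompletion M), x ∉ q₀.W ∨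
        ∃ a : w.adicCompletion M, q₀.val x a ∧ 1 < Valued.v a) ∧
      ∀ q : Plc M N (AlgebraicClosure (w.adicCompletion M)), s.GivenBy (w.adicCompletion M) q →
        algebraMap L N x ∉ q.W ∨ ∃ a : w.adicCompletion M,
          q.val (algebraMap L N x) (algebraMap (w.adicCompletion M)
            (AlgebraicClosure (w.adicCompletion M)) a) ∧ 1 < Valued.v a := by
  obtain ⟨r, hr1, hr2⟩ := sec_fin hM hg hm hd hirr hsel hmo U hU e he hxy s hs
  refine ⟨⟨r, hr1, hr2⟩, fun w hw => ?_⟩
  have hmK : (fF f).Monic := hm.map _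
  have hdK : (fF f).natDegree = 2 * g + 1 := by rw [fF, hm.natDegree_map, hd]
  have hiM : Irreducible (fM M f) := Pool.Agent.N874.JM.irr_up hM hirr hmK (by
    rw [hdK]
    exact odd_two_mul_add_one g)
  have hv : (2 : 𝓞 F) ∈ (blw F w).asIdeal := by
    rw [mem_blw, map_ofNat]
    exact hw
  obtain ⟨σ⟩ := h2M _ hv
  haveI hNL : Algebra.IsAlgebraic L N := by
    haveI : Algebra.IsAlgebraic L Ω := IsAlgClosure.isAlgebraic
    exact Algebra.IsAlgebraic.of_injective e e.injective
  have key := fun (q : Plc M N (AlgebraicClosure (w.adicCompletion M)))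
    (hq : s.GivenBy (w.adicCompletion M) q) =>
      far hm hiM (h2i _ hv) (h2r _ hv) σ s hr1 hr2 q hq
  refine ⟨?_, key⟩
  haveI : CharZero (w.adicCompletion M) :=
    charZero_of_injective_algebraMap (algebraMap M (w.adicCompletion M)).injective
  obtain ⟨q, hq⟩ := hs w
  obtain ⟨q₀, h1, h2⟩ := place_down' s q hq
  refine ⟨q₀, ?_⟩
  rcases key q hq with h3 | ⟨a, h3, h4⟩
  · left
    rw [h1]
    exact h3
  · right
    exact ⟨a, (h2 x a).2 h3, h4⟩

end main

end Pool.Agent.Helper82.SY
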