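import Pool.Graph.R_seed8.TH954.SEt2

/-!
# Project SY (helper82): the square roots of `x - θ` on a hyperelliptic curve are unramified

`y ^ 2 = f(x)`, `f` separable of odd degree over `K`, `θ` a root of `f`. The square root of `x - θ` generates an
extension of the function field which is unramified at all valuation rings over `K`.
-/

set_option autoImplicit false
set_option linter.all false

open Polynomial
open scoped Classical

namespace Pool.Agent.Helper82.SY

open Pool.Agent.W620.SC

section val

variable {K F Ω : Type} [Field K] [CharZero K] [Field F] [Field Ω] [Algebra K F] [Algebra F Ω]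
  [Algebra K Ω] [IsScalarTower K F Ω] [IsAlgClosed Ω]

/-- nonzero constants have valuation one -/
theorem const_val {W : ValuationSubring Ω} (hW : ∀ c : K, algebraMap K Ω c ∈ W) {x : Ω}
    (hx : IsIntegral K x) (hx0 : x ≠ 0) : W.valuation x = 1 := by
  have h1 : x ∈ algebraicClosure K Ω := hx
  have h2 := const_mem (k := K) hW h1
  have h3 := const_mem (k := K) hW (inv_mem h1)
  refine le_antisymm ((W.valuation_le_one_iff _).2 h2) ?_
  have h4 := (W.valuation_le_one_iff _).2 h3
  rw [map_inv₀] at h4
  exact (inv_le_one₀ (zero_lt_iff.2 ((Valuation.ne_zero_iff _).2 hx0))).1 h4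

/-- **The comparison with an element of `F`.** -/
theorem exists_cmp {f : K[X]} (hm : f.Monic) (hs : f.Separable) {g : ℕ}
    (hd : f.natDegree = 2 * g + 1) {x y : F} (hxy : y ^ 2 = aeval x f) (hy : y ≠ 0)
    {W : ValuationSubring Ω} (hW : ∀ c : K, algebraMap K Ω c ∈ W) {θ : Ω} (hθ : aeval θ f = 0) :
    ∃ t : F, t ≠ 0 ∧ W.valuation (algebraMap F Ω x - θ) = W.valuation (algebraMap F Ω t) ^ 2 := by
  have hcΩ : CharZero Ω := charZero_of_injective_algebraMap (algebraMap K Ω).injective
  set X' : Ω := algebraMap F Ω x with hX'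
  set Y' : Ω := algebraMap F Ω y with hY'
  have hY0 : Y' ≠ 0 := (_root_.map_ne_zero _).2 hy
  have hroot : ∀ r ∈ (f.map (algebraMap K Ω)).roots, IsIntegral K r := by
    intro r hr
    have h1 := (mem_roots'.1 hr).2
    rw [IsRoot.def, eval_map_algebraMap] at h1
    exact ⟨f, hm, h1⟩
  have hsp : (f.map (algebraMap K Ω)).Splits := IsAlgClosed.splits _
  have hmΩ : (f.map (algebraMap K Ω)).Monic := hm.map _
  have hprod : Y' ^ 2 = ((f.map (algebraMap K Ω)).roots.map fun r => X' - r).prod := by
    have h1 : aeval X' f = ((f.map (algebraMap K Ω)).roots.map fun r => X' - r).prod := by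
      conv_lhs => rw [← eval_map_algebraMap, hsp.eq_prod_roots_of_monic hmΩ]
      rw [eval_multiset_prod, Multiset.map_map]
      congr 1
      refine Multiset.map_congr rfl fun r _ => ?_
      rw [Function.comp_apply, eval_sub, eval_X, eval_C]
    rw [← h1, hX', aeval_algebraMap_apply, ← hxy, hY', map_pow]
  have hcard : Multiset.card (f.map (algebraMap K Ω)).roots = 2 * g + 1 := by
    rw [← hd, ← hm.natDegree_map (algebraMap K Ω)]
    exact (hsp.natDegree_eq_card_roots).symm
  have hθr : θ ∈ (f.map (algebraMap K Ω)).roots := by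
    rw [mem_roots hmΩ.ne_zero, IsRoot.def, eval_map_algebraMap]
    exact hθ
  have hθi : IsIntegral K θ := hroot θ hθr
  have hθW : W.valuation θ ≤ 1 := (W.valuation_le_one_iff _).2 (const_mem (k := K) hW hθi)
  by_cases hx : X' ∈ W
  · by_cases hn : W.valuation (X' - θ) < 1
    · -- the other factors are units
      refine ⟨y, hy, ?_⟩
      have hnd : (f.map (algebraMap K Ω)).roots.Nodup := nodup_roots (hs.map)
      have h1 : (f.map (algebraMap K Ω)).roots = θ ::ₘ ((f.map (algebraMap K Ω)).roots.erase θ) :=
        (Multiset.cons_erase hθr).symm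
      rw [h1, Multiset.map_cons, Multiset.prod_cons] at hprod
      have h2 : W.valuation (((f.map (algebraMap K Ω)).roots.erase θ).map fun r => X' - r).prod
          = 1 := by
        rw [← Multiset.prod_hom]
        refine Multiset.prod_eq_one ?_
        intro z hz
        rw [Multiset.map_map, Multiset.mem_map] at hz
        obtain ⟨r, hr, rfl⟩ := hz
        have hr' := (hnd.mem_erase_iff).1 hr
        have e : (X' - r) = (θ - r) + (X' - θ) := by ring
        have h3 : W.valuation (θ - r) = 1 :=
          const_val (K := K) hW (hθi.sub (hroot r hr'.2)) (sub_ne_zero.2 (Ne.symm hr'.1))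
        rw [Function.comp_apply, e, Valuation.map_add_eq_of_lt_left _ (by rw [h3]; exact hn), h3]
      have h3 := congrArg W.valuation hprod
      rw [map_pow, map_mul, h2, mul_one] at h3
      exact h3.symm
    · refine ⟨1, one_ne_zero, ?_⟩
      rw [map_one, map_one, one_pow]
      refine le_antisymm ?_ (not_lt.1 hn)
      exact (Valuation.map_sub _ _ _).trans (max_le ((W.valuation_le_one_iff _).2 hx) hθW)
  · have hx1 : 1 < W.valuation X' := by
      rw [← not_le]
      intro h
      exact hx ((W.valuation_le_one_iff _).1 h)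
    have hx0 : x ≠ 0 := by
      rintro rfl
      apply hx
      rw [hX', map_zero]
      exact zero_mem _
    have hsub : ∀ r : Ω, IsIntegral K r → W.valuation (X' - r) = W.valuation X' := by
      intro r hr
      refine Valuation.map_sub_eq_of_lt_left _ ?_
      exact lt_of_le_of_lt ((W.valuation_le_one_iff _).2 (const_mem (k := K) hW hr)) hx1
    refine ⟨y / x ^ g, div_ne_zero hy (pow_ne_zero _ hx0), ?_⟩
    have h1 := congrArg W.valuation hprod
    have h2 : W.valuation (((f.map (algebraMap K Ω)).roots).map fun r => X' - r).prod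
          = W.valuation X' ^ (2 * g + 1) := by
      rw [← Multiset.prod_hom, Multiset.map_map]
      have h3 : ((f.map (algebraMap K Ω)).roots.map (⇑W.valuation ∘ fun r => X' - r)) =
          Multiset.replicate (2 * g + 1) (W.valuation X') := by
        rw [Multiset.eq_replicate]
        refine ⟨by rw [Multiset.card_map, hcard], fun z hz => ?_⟩
        rw [Multiset.mem_map] at hz
        obtain ⟨r, hr, rfl⟩ := hz
        rw [Function.comp_apply]
        exact hsub r (hroot r hr)
      rw [h3, Multiset.prod_replicate]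
    rw [map_pow, h2] at h1
    have h0 : W.valuation X' ≠ 0 := (lt_trans zero_lt_one hx1).ne'
    rw [hsub θ hθi, map_div₀, map_pow, map_div₀, map_pow, div_pow]
    change _ = W.valuation Y' ^ 2 / (W.valuation X' ^ g) ^ 2
    rw [h1, eq_div_iff (pow_ne_zero _ (pow_ne_zero _ h0)), ← pow_mul, ← pow_succ']
    congr 1
    ring

end val

section root

variable {K F Ω M : Type} [Field K] [CharZero K] [Field F] [Field Ω] [Field M] [Algebra K F]
  [Algebra F Ω] [Algebra K Ω] [IsScalarTower K F Ω] [IsAlgClosed Ω] [Algebra F M] [Algebra K M]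
  [IsScalarTower K F M]

/-- **The square roots of `x - θ`.** -/
theorem exists_root {f : K[X]} (hm : f.Monic) (hs : f.Separable) {g : ℕ}
    (hd : f.natDegree = 2 * g + 1) {x y : F} (hxy : y ^ 2 = aeval x f) (hy : y ≠ 0)
    (U : Set (ValuationSubring F)) (hU : ∀ O ∈ U, ∀ c : K, algebraMap K F c ∈ O)
    (e : M →ₐ[F] Ω) (he : unramified F Ω U ≤ e.fieldRange) {θ : M} (hθ : aeval θ f = 0) :
    ∃ w : M, w ^ 2 = algebraMap F M x - θ := by
  have hcΩ : CharZero Ω := charZero_of_injective_algebraMap (algebraMap K Ω).injective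
  have hθ' : aeval (e θ) f = 0 := by
    have h1 := aeval_algHom_apply (e.restrictScalars K) θ f
    rw [hθ, map_zero] at h1
    exact h1
  have hθi : IsIntegral K (e θ) := ⟨f, hm, hθ'⟩
  obtain ⟨ρ, hρ⟩ := IsAlgClosed.exists_pow_nat_eq (algebraMap F Ω x - e θ) (n := 2) (by norm_num)
  have hρU : ρ ∈ unramified F Ω U := by
    rw [mem_unramified]
    intro W hW σ hσ
    by_cases hρ0 : ρ = 0
    · rw [hρ0, map_zero]
    have hWk : ∀ c : K, algebraMap K Ω c ∈ W := by
      intro c
      rw [IsScalarTower.algebraMap_apply K F Ω]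
      exact hU _ hW c
    obtain ⟨t, ht0, ht⟩ := exists_cmp hm hs hd hxy hy hWk hθ'
    have hσθ : σ (e θ) = e θ := inertia_const (k := K) hWk hσ hθi
    have ht0' : algebraMap F Ω t ≠ 0 := (_root_.map_ne_zero _).2 ht0
    have hv : W.valuation (ρ ^ 2) = W.valuation (algebraMap F Ω t ^ 2) := by
      rw [hρ, ht, map_pow]
    have hv0 : W.valuation (algebraMap F Ω t ^ 2) ≠ 0 :=
      (Valuation.ne_zero_iff _).2 (pow_ne_zero _ ht0')
    refine inertia_root (k := K) hWk hσ (n := 2) (by norm_num) (t := algebraMap F Ω t) ?_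
      (σ.commutes t) ht0' hρ0 ?_ ?_
    · rw [hρ, map_sub, σ.commutes, hσθ]
    · rw [← W.valuation_le_one_iff, map_div₀, hv, div_self hv0]
    · rw [← W.valuation_le_one_iff, map_div₀, hv, div_self hv0]
  obtain ⟨w, hw⟩ := he hρU
  have hw' : e w = ρ := hw
  have h1 : e (w ^ 2) = e (algebraMap F M x - θ) := by
    rw [map_pow, hw', hρ, map_sub, e.commutes]
  exact ⟨w, e.injective h1⟩

end root

end Pool.Agent.Helper82.SY
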